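import Mathlib

set_option autoImplicit false

open Metric Set Filter Topology

namespace Pool.Agent.H936Z.Holmes

/-- Finite binary intersection property: finitely many pairwise meeting balls have a common
point. -/
def FinHelly (N : Type*) [PseudoMetricSpace N] : Prop :=
  ∀ s : Set (N × ℝ), s.Finite → (∀ a ∈ s, ∀ b ∈ s, dist a.1 b.1 ≤ a.2 + b.2) →
    ∃ y, ∀ a ∈ s, dist y a.1 ≤ a.2

section Cut

variable {M : Type*} [PseudoMetricSpace M]

/-- The point-finite cutoff functions attached to a sequence `w`. -/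
noncomputable def cut (w : ℕ → M) (r : ℝ) (z : M) (k : ℕ) : ℝ :=
  (Finset.range (k + 1)).inf' Finset.nonempty_range_add_one
    (fun j => if j = k then 3 * r - dist z (w k) else dist z (w j) - 2 * r)

theorem cut_le (w : ℕ → M) (r : ℝ) (z : M) (k : ℕ) : cut w r z k ≤ 3 * r - dist z (w k) := by
  have := Finset.inf'_le (s := Finset.range (k + 1))
    (fun j => if j = k then 3 * r - dist z (w k) else dist z (w j) - 2 * r)
    (Finset.self_mem_range_succ k)
  rw [if_pos rfl] at this
  exact this

theorem cut_le_of_lt (w : ℕ → M) (r : ℝ) (z : M) {j k : ℕ} (h : j < k) :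
    cut w r z k ≤ dist z (w j) - 2 * r := by
  have := Finset.inf'_le (s := Finset.range (k + 1))
    (fun j => if j = k then 3 * r - dist z (w k) else dist z (w j) - 2 * r)
    (Finset.mem_range.2 (Nat.lt_succ_of_lt h))
  rw [if_neg h.ne] at this
  exact this

theorem le_cut (w : ℕ → M) (r : ℝ) (z : M) (k : ℕ) (t : ℝ) (h1 : t ≤ 3 * r - dist z (w k))
    (h2 : ∀ j < k, t ≤ dist z (w j) - 2 * r) : t ≤ cut w r z k := by
  unfold cut
  rw [Finset.le_inf'_iff]
  intro j hj
  split_ifs with h
  · exact h1
  · exact h2 j (lt_of_le_of_ne (Nat.lt_succ_iff.1 (Finset.mem_range.1 hj)) h)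

theorem cut_lip (w : ℕ → M) (r r' : ℝ) (z z' : M) (k : ℕ) :
    cut w r z k ≤ cut w r' z' k + 3 * |r - r'| + dist z z' := by
  have h0 : cut w r z k - 3 * |r - r'| - dist z z' ≤ cut w r' z' k := by
    apply le_cut
    · have h1 := cut_le w r z k
      have h2 := dist_triangle z' z (w k)
      have h3 := le_abs_self (r - r')
      rw [dist_comm z' z] at h2
      linarith
    · intro j hj
      have h1 := cut_le_of_lt w r z hj
      have h2 := dist_triangle z z' (w j)
      have h3 := neg_abs_le (r - r')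
      have h4 := abs_nonneg (r - r')
      linarith
  linarith

theorem exists_cut_big (w : ℕ → M) (r : ℝ) (z : M) (h : ∃ j, dist z (w j) < 5 / 2 * r) :
    ∃ k, dist z (w k) < 5 / 2 * r ∧ r / 2 ≤ cut w r z k := by
  classical
  refine ⟨Nat.find h, Nat.find_spec h, le_cut _ _ _ _ _ ?_ ?_⟩
  · have := Nat.find_spec h
    linarith
  · intro j hj
    have := Nat.find_min h hj
    push Not at this
    linarith

end Cut

theorem exists_seq_rec {N : Type*} [Nonempty N] (C : ℕ → N → Prop) (R : ℕ → ℕ → N → N → Prop)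
    (h : ∀ (i : ℕ) (p : ℕ → N), (∀ l < i, C l (p l)) →
      (∀ l < i, ∀ l' < l, R l l' (p l) (p l')) → ∃ y, C i y ∧ ∀ l < i, R i l y (p l)) :
    ∃ p : ℕ → N, (∀ i, C i (p i)) ∧ ∀ i, ∀ l < i, R i l (p i) (p l) := by
  classical
  have h' : ∀ (i : ℕ) (p : ℕ → N), ∃ y, ((∀ l < i, C l (p l)) ∧
      (∀ l < i, ∀ l' < l, R l l' (p l) (p l'))) → C i y ∧ ∀ l < i, R i l y (p l) := by
    intro i p
    by_cases hp : (∀ l < i, C l (p l)) ∧ (∀ l < i, ∀ l' < l, R l l' (p l) (p l'))
    · obtain ⟨y, hy⟩ := h i p hp.1 hp.2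
      exact ⟨y, fun _ => hy⟩
    · exact ⟨Classical.arbitrary N, fun h => absurd h hp⟩
  choose F hF using h'
  let q : ℕ → ℕ → N := fun n => Nat.rec (fun _ => Classical.arbitrary N)
    (fun n qn => Function.update qn n (F n qn)) n
  have hq : ∀ n, q (n + 1) = Function.update (q n) n (F n (q n)) := fun n => rfl
  let p : ℕ → N := fun n => F n (q n)
  have hqp : ∀ n, ∀ l < n, q n l = p l := by
    intro n
    induction n with
    | zero => intro l hl; exact absurd hl (Nat.not_lt_zero _)
    | succ n ih =>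
      intro l hl
      rw [hq]
      rcases Nat.lt_succ_iff_lt_or_eq.1 hl with h1 | h1
      · rw [Function.update_of_ne h1.ne, ih l h1]
      · subst h1
        simp [p]
  have key : ∀ n, (∀ l < n, C l (p l)) ∧ (∀ l < n, ∀ l' < l, R l l' (p l) (p l')) := by
    intro n
    induction n with
    | zero => exact ⟨fun l hl => absurd hl (Nat.not_lt_zero _),
        fun l hl => absurd hl (Nat.not_lt_zero _)⟩
    | succ n ih =>
      have h1 := hF n (q n) ⟨fun l hl => by rw [hqp n l hl]; exact ih.1 l hl,
        fun l hl l' hl' => by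
          rw [hqp n l hl, hqp n l' (hl'.trans hl)]; exact ih.2 l hl l' hl'⟩
      refine ⟨fun l hl => ?_, fun l hl l' hl' => ?_⟩
      · rcases Nat.lt_succ_iff_lt_or_eq.1 hl with h2 | h2
        · exact ih.1 l h2
        · subst h2; exact h1.1
      · rcases Nat.lt_succ_iff_lt_or_eq.1 hl with h2 | h2
        · exact ih.2 l h2 l' hl'
        · subst h2
          have := h1.2 l' hl'
          rwa [hqp l l' hl'] at this
  exact ⟨p, fun i => (key (i + 1)).1 i (Nat.lt_succ_self i),
    fun i l hl => (key (i + 1)).2 i (Nat.lt_succ_self i) l hl⟩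

/-- Lipschitz extension from any subset of a separable metric space into a complete space with
the finite binary intersection property. The subset is given as the range of `e`. -/
theorem exists_lipschitz_ext {P M N : Type*} [TopologicalSpace P]
    [TopologicalSpace.SeparableSpace P] [Nonempty P]
    [PseudoMetricSpace M] [TopologicalSpace.SeparableSpace M] [MetricSpace N] [CompleteSpace N]
    (hN : FinHelly N) (e : P → M) (he : Continuous e) (g : P → N) (c : NNReal)
    (hg : ∀ a b, dist (g a) (g b) ≤ c * dist (e a) (e b)) :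
    ∃ G : M → N, LipschitzWith (77 * c) G ∧ ∀ a, G (e a) = g a := by
  classical
  have hc : (0 : ℝ) ≤ c := c.2
  have : Nonempty M := ⟨e (Classical.arbitrary P)⟩
  have : Nonempty N := ⟨g (Classical.arbitrary P)⟩
  let x : ℕ → P := TopologicalSpace.denseSeq P
  have hx : DenseRange x := TopologicalSpace.denseRange_denseSeq P
  let w : ℕ → M := fun k => e (x k)
  let r : M → ℝ := fun z => infDist z (range e)
  have hne : (range e).Nonempty := range_nonempty e
  have hr0 : ∀ z, 0 ≤ r z := fun z => infDist_nonneg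
  have hrle : ∀ z a, r z ≤ dist z (e a) := fun z a => infDist_le_dist_of_mem ⟨a, rfl⟩
  have hrlip : ∀ z z', |r z - r z'| ≤ dist z z' := by
    intro z z'
    have h1 : r z ≤ r z' + dist z z' := infDist_le_infDist_add_dist
    have h2 : r z' ≤ r z + dist z' z := infDist_le_infDist_add_dist
    rw [dist_comm z' z] at h2
    rw [abs_le]
    constructor <;> linarith
  have hnear : ∀ z, 0 < r z → ∃ j, dist z (w j) < 2 * r z := by
    intro z hz
    have h1 : infDist z (range e) < 3 / 2 * r z := by
      change r z < _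
      linarith
    obtain ⟨_, ⟨a, rfl⟩, ha⟩ := (infDist_lt_iff hne).1 h1
    have h2 : e ⁻¹' ball (e a) (r z / 2) ∈ 𝓝 a :=
      he.continuousAt.preimage_mem_nhds (ball_mem_nhds _ (by linarith))
    obtain ⟨j, hj⟩ := hx.mem_nhds h2
    refine ⟨j, ?_⟩
    have h3 : dist (w j) (e a) < r z / 2 := hj
    have h4 := dist_triangle z (e a) (w j)
    rw [dist_comm (e a) (w j)] at h4
    linarith
  let ρ : ℕ → M → ℝ := fun k z => c * (33 * r z - 11 * cut w (r z) z k)
  have hρA : ∀ k z, c * dist z (w k) ≤ ρ k z := by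
    intro k z
    apply mul_le_mul_of_nonneg_left _ hc
    have h1 := cut_le w (r z) z k
    have h2 : 0 ≤ dist z (w k) := dist_nonneg
    linarith
  have hρB : ∀ k z z', ρ k z ≤ ρ k z' + 77 * c * dist z z' := by
    intro k z z'
    have h1 := cut_lip w (r z') (r z) z' z k
    have h2 := hrlip z' z
    have h3 := hrlip z z'
    have h4 := le_abs_self (r z - r z')
    rw [dist_comm z' z] at h1 h2
    have h5 : 33 * r z - 11 * cut w (r z) z k ≤
        33 * r z' - 11 * cut w (r z') z' k + 77 * dist z z' := by linarith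
    have h6 := mul_le_mul_of_nonneg_left h5 hc
    change (c : ℝ) * (33 * r z - 11 * cut w (r z) z k) ≤
      (c : ℝ) * (33 * r z' - 11 * cut w (r z') z' k) + _
    linarith
  have hgw : ∀ k l, dist (g (x k)) (g (x l)) ≤ c * dist (w k) (w l) := fun k l => hg _ _
  -- finitely many constraints imply all of them
  have hρC : ∀ z, 0 < r z → ∃ K k₀, k₀ ≤ K ∧ dist z (w k₀) < 5 / 2 * r z ∧
      ρ k₀ z ≤ c * (55 / 2 * r z) ∧ ∀ k, K < k → cut w (r z) z k ≤ 0 := by
    intro z hz
    obtain ⟨j, hj⟩ := hnear z hz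
    obtain ⟨k₀, h1, h2⟩ := exists_cut_big w (r z) z ⟨j, by linarith⟩
    refine ⟨max j k₀, k₀, le_max_right _ _, h1, ?_, fun k hk => ?_⟩
    · apply mul_le_mul_of_nonneg_left _ hc
      linarith
    · have := cut_le_of_lt w (r z) z (lt_of_le_of_lt (le_max_left j k₀) hk)
      linarith
  let u : ℕ → M := TopologicalSpace.denseSeq M
  have hu : DenseRange u := TopologicalSpace.denseRange_denseSeq M
  obtain ⟨p, hpC, hpR⟩ := exists_seq_rec
    (fun i y => 0 < r (u i) → ∀ k, dist y (g (x k)) ≤ ρ k (u i))
    (fun i l y y' => 0 < r (u i) → 0 < r (u l) → dist y y' ≤ 77 * c * dist (u i) (u l)) (by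
      intro i p hC hR
      by_cases hi : 0 < r (u i)
      swap
      · exact ⟨Classical.arbitrary N, fun h => absurd h hi, fun l _ h => absurd h hi⟩
      obtain ⟨K, k₀, hk₀, hd, hρ0, hK⟩ := hρC (u i) hi
      have hR' : ∀ l < i, ∀ l' < i, 0 < r (u l) → 0 < r (u l') →
          dist (p l) (p l') ≤ 77 * c * dist (u l) (u l') := by
        intro l hl l' hl' h1 h2
        rcases lt_trichotomy l l' with h | h | h
        · rw [dist_comm, dist_comm (u l)]
          exact hR l' hl' l h h2 h1
        · subst h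
          simp
        · exact hR l hl l' h h1 h2
      have h77 : (0 : ℝ) ≤ 77 * c := by positivity
      obtain ⟨y, hy⟩ := hN ((fun k => (g (x k), ρ k (u i))) '' Iic K ∪
          (fun l => (p l, 77 * c * dist (u i) (u l))) '' {l | l < i ∧ 0 < r (u l)})
        (((finite_Iic K).image _).union
          (((finite_lt_nat i).subset (fun l hl => hl.1)).image _)) (by
          have hmix : ∀ k l, l < i → 0 < r (u l) →
              dist (p l) (g (x k)) ≤ 77 * c * dist (u i) (u l) + ρ k (u i) := by
            intro k l hl hl'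
            have h1 := hC l hl hl' k
            have h2 := hρB k (u l) (u i)
            rw [dist_comm (u l) (u i)] at h2
            linarith
          rintro _ (⟨k, -, rfl⟩ | ⟨l, ⟨hl, hl'⟩, rfl⟩) _ (⟨k', -, rfl⟩ | ⟨l', ⟨hm, hm'⟩, rfl⟩)
          · have h1 := hgw k k'
            have h2 := hρA k (u i)
            have h3 := hρA k' (u i)
            have h4 := mul_le_mul_of_nonneg_left (dist_triangle_left (w k) (w k') (u i)) hc
            dsimp only
            linarith
          · have := hmix k l' hm hm'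
            dsimp only
            rw [dist_comm]
            linarith
          · exact hmix k' l hl hl'
          · have h1 := hR' l hl l' hm hl' hm'
            have h2 := mul_le_mul_of_nonneg_left (dist_triangle_left (u l) (u l') (u i)) h77
            dsimp only
            linarith)
      refine ⟨y, fun _ k => ?_, fun l hl _ hl' => ?_⟩
      · by_cases hk : k ≤ K
        · exact hy _ (Or.inl ⟨k, hk, rfl⟩)
        · have h1 : dist y (g (x k₀)) ≤ ρ k₀ (u i) := hy _ (Or.inl ⟨k₀, hk₀, rfl⟩)
          have h2 := hK k (not_le.1 hk)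
          have h3 := cut_le w (r (u i)) (u i) k
          have h4 := dist_triangle y (g (x k₀)) (g (x k))
          have h5 := hgw k₀ k
          have h6 := dist_triangle_left (w k₀) (w k) (u i)
          have h7 : 55 / 2 * r (u i) + dist (w k₀) (w k) ≤
              33 * r (u i) - 11 * cut w (r (u i)) (u i) k := by linarith
          have h8 := mul_le_mul_of_nonneg_left h7 hc
          change dist y (g (x k)) ≤ (c : ℝ) * (33 * r (u i) - 11 * cut w (r (u i)) (u i) k)
          linarith
      · exact hy _ (Or.inr ⟨l, ⟨hl, hl'⟩, rfl⟩))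
  let Rel : M → N → Prop := fun z y => (∃ a, z = e a ∧ y = g a) ∨
    (∃ i, 0 < r (u i) ∧ z = u i ∧ y = p i)
  have hmix : ∀ i a, 0 < r (u i) → dist (p i) (g a) ≤ 77 * c * dist (u i) (e a) := by
    intro i a hi
    obtain ⟨K, k₀, -, hd, hρ0, -⟩ := hρC (u i) hi
    have h1 := hpC i hi k₀
    have h2 := dist_triangle (p i) (g (x k₀)) (g a)
    have h3 : dist (g (x k₀)) (g a) ≤ c * dist (w k₀) (e a) := hg _ _
    have h4 := dist_triangle_left (w k₀) (e a) (u i)
    have h5 := hrle (u i) a
    have h6 : 55 / 2 * r (u i) + dist (w k₀) (e a) ≤ 77 * dist (u i) (e a) := by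
      have : 0 ≤ dist (u i) (e a) := dist_nonneg
      linarith
    have h7 := mul_le_mul_of_nonneg_left h6 hc
    linarith
  have hRel : ∀ z y z' y', Rel z y → Rel z' y' → dist y y' ≤ 77 * c * dist z z' := by
    rintro z y z' y' (⟨a, rfl, rfl⟩ | ⟨i, hi, rfl, rfl⟩) (⟨a', rfl, rfl⟩ | ⟨i', hi', rfl, rfl⟩)
    · have h1 := hg a a'
      have h2 : 0 ≤ c * dist (e a) (e a') := mul_nonneg hc dist_nonneg
      linarith
    · rw [dist_comm, dist_comm (e a)]
      exact hmix i' a hi'
    · exact hmix i a' hi
    · rcases lt_trichotomy i i' with h | h | h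
      · rw [dist_comm, dist_comm (u i)]
        exact hpR i' i h hi' hi
      · subst h
        simp
      · exact hpR i i' h hi hi'
  let S : Set M := {z | ∃ y, Rel z y}
  have hS : Dense S := by
    intro z
    by_cases hz : 0 < r z
    · rw [Metric.mem_closure_iff]
      intro ε hε
      obtain ⟨i, hi⟩ := hu.exists_dist_lt z (lt_min hε hz)
      refine ⟨u i, ⟨p i, Or.inr ⟨i, ?_, rfl, rfl⟩⟩, hi.trans_le (min_le_left _ _)⟩
      have h1 := hrlip z (u i)
      have h2 := le_abs_self (r z - r (u i))
      have h3 := min_le_right ε (r z)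
      linarith
    · have h1 : infDist z (range e) = 0 := le_antisymm (not_lt.1 hz) (hr0 z)
      have h2 : z ∈ closure (range e) := (mem_closure_iff_infDist_zero hne).2 h1
      refine closure_mono ?_ h2
      rintro _ ⟨a, rfl⟩
      exact ⟨g a, Or.inl ⟨a, rfl, rfl⟩⟩
  let f : S → N := fun z => Classical.choose z.2
  have hf : ∀ z : S, Rel z (f z) := fun z => Classical.choose_spec z.2
  have hfl : LipschitzWith (77 * c) f := by
    apply LipschitzWith.of_dist_le_mul
    intro z z'
    have := hRel _ _ _ _ (hf z) (hf z')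
    simpa [Subtype.dist_eq] using this
  refine ⟨hS.extend f, hS.lipschitzWith_extend hfl, fun a => ?_⟩
  have hmem : e a ∈ S := ⟨g a, Or.inl ⟨a, rfl, rfl⟩⟩
  have h1 : hS.extend f (e a) = f ⟨e a, hmem⟩ :=
    hS.extend_eq hfl.continuous ⟨e a, hmem⟩
  rw [h1]
  have h2 := hRel _ _ _ _ (hf ⟨e a, hmem⟩) (Or.inl ⟨a, rfl, rfl⟩)
  simpa using h2

end Pool.Agent.H936Z.Holmes
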