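import Mathlib
import Pool.Agent.H936Z.HolmesExt

set_option autoImplicit false

open Metric Set Filter Topology

namespace Pool.Agent.H936Z.Holmes

abbrev c0 : Type := ZeroAtInftyContinuousMap ℕ ℝ

theorem c0_apply_le (a : c0) (k : ℕ) : |a k| ≤ ‖a‖ := by
  rw [← ZeroAtInftyContinuousMap.norm_toBCF_eq_norm]
  exact BoundedContinuousFunction.norm_coe_le_norm a.toBCF k

theorem c0_norm_le (a : c0) (r : ℝ) (hr : 0 ≤ r) (h : ∀ k, |a k| ≤ r) : ‖a‖ ≤ r := by
  rw [← ZeroAtInftyContinuousMap.norm_toBCF_eq_norm]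
  exact (BoundedContinuousFunction.norm_le hr).2 h

theorem c0_sub_le (a b : c0) (k : ℕ) : |a k - b k| ≤ dist a b := by
  rw [dist_eq_norm]
  exact c0_apply_le (a - b) k

theorem c0_dist_le (a b : c0) (r : ℝ) (hr : 0 ≤ r) (h : ∀ k, |a k - b k| ≤ r) :
    dist a b ≤ r := by
  rw [dist_eq_norm]
  exact c0_norm_le (a - b) r hr h

theorem c0_tendsto (a : c0) : Tendsto a cofinite (𝓝 0) := by
  have := ZeroAtInftyContinuousMapClass.zero_at_infty a
  rwa [cocompact_eq_cofinite] at this

/-- A null sequence as an element of `c0`. -/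
def mk0 (f : ℕ → ℝ) (h : Tendsto f cofinite (𝓝 0)) : c0 where
  toFun := f
  continuous_toFun := continuous_of_discreteTopology
  zero_at_infty' := by rwa [cocompact_eq_cofinite]

@[simp] theorem mk0_apply (f : ℕ → ℝ) (h : Tendsto f cofinite (𝓝 0)) (k : ℕ) :
    mk0 f h k = f k := rfl

theorem tendsto_of_abs_le (f g : ℕ → ℝ) (hg : Tendsto g cofinite (𝓝 0))
    (h : ∀ k, |f k| ≤ |g k|) : Tendsto f cofinite (𝓝 0) := by
  rw [tendsto_zero_iff_abs_tendsto_zero] at hg ⊢
  exact squeeze_zero (fun k => abs_nonneg _) h hg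

instance c0_separable : TopologicalSpace.SeparableSpace c0 := by
  classical
  have hfin : ∀ v : ℕ →₀ ℚ, Tendsto (fun k => (v k : ℝ)) cofinite (𝓝 0) := by
    intro v
    apply tendsto_const_nhds.congr'
    filter_upwards [v.support.finite_toSet.compl_mem_cofinite] with k hk
    have : v k = 0 := by simpa using hk
    simp [this]
  refine ⟨⟨range (fun v : ℕ →₀ ℚ => mk0 (fun k => (v k : ℝ)) (hfin v)), countable_range _, ?_⟩⟩
  intro a
  rw [Metric.mem_closure_iff]
  intro ε hε
  have h1 : ∀ᶠ k in cofinite, |a k| < ε / 2 := by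
    have := (c0_tendsto a).eventually (Metric.ball_mem_nhds (0 : ℝ) (half_pos hε))
    filter_upwards [this] with k hk
    simpa using hk
  have h2 : ∀ k, ∃ q : ℚ, |a k - q| < ε / 2 := fun k => exists_rat_near (a k) (half_pos hε)
  choose q hq using h2
  have h3 : {k | ¬ |a k| < ε / 2}.Finite := h1
  refine ⟨_, ⟨Finsupp.onFinset h3.toFinset (fun k => if |a k| < ε / 2 then 0 else q k) ?_,
    rfl⟩, ?_⟩
  · intro k hk
    by_contra h
    simp only [Finite.mem_toFinset, mem_ofPred_eq, not_not] at h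
    simp [h] at hk
  · refine lt_of_le_of_lt (c0_dist_le _ _ (ε / 2) (half_pos hε).le fun k => ?_) (half_lt_self hε)
    simp only [mk0_apply, Finsupp.onFinset_apply]
    split_ifs with h
    · simpa using h.le
    · exact (hq k).le

theorem c0_finHelly : FinHelly c0 := by
  classical
  intro s hs h
  rcases s.eq_empty_or_nonempty with rfl | hne
  · exact ⟨0, by simp⟩
  have hne' : hs.toFinset.Nonempty := by simpa using hne
  let lo : ℕ → ℝ := fun k => hs.toFinset.sup' hne' (fun a => a.1 k - a.2)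
  let hi : ℕ → ℝ := fun k => hs.toFinset.inf' hne' (fun a => a.1 k + a.2)
  have hlo : ∀ k, ∀ a ∈ s, a.1 k - a.2 ≤ lo k := fun k a ha =>
    Finset.le_sup' (fun a : c0 × ℝ => a.1 k - a.2) (hs.mem_toFinset.2 ha)
  have hhi : ∀ k, ∀ a ∈ s, hi k ≤ a.1 k + a.2 := fun k a ha =>
    Finset.inf'_le (fun a : c0 × ℝ => a.1 k + a.2) (hs.mem_toFinset.2 ha)
  have hlo' : ∀ k, ∃ a ∈ s, lo k = a.1 k - a.2 := fun k => by
    obtain ⟨a, ha, h⟩ := Finset.exists_mem_eq_sup' hne' (fun a : c0 × ℝ => a.1 k - a.2)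
    exact ⟨a, hs.mem_toFinset.1 ha, h⟩
  have hhi' : ∀ k, ∃ a ∈ s, hi k = a.1 k + a.2 := fun k => by
    obtain ⟨a, ha, h⟩ := Finset.exists_mem_eq_inf' hne' (fun a : c0 × ℝ => a.1 k + a.2)
    exact ⟨a, hs.mem_toFinset.1 ha, h⟩
  have hr : ∀ a ∈ s, 0 ≤ a.2 := fun a ha => by
    have := h a ha a ha
    rw [dist_self] at this
    linarith
  have hlohi : ∀ k, lo k ≤ hi k := fun k => by
    obtain ⟨a, ha, h1⟩ := hlo' k
    obtain ⟨b, hb, h2⟩ := hhi' k
    have h3 := h a ha b hb
    have h4 := c0_sub_le a.1 b.1 k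
    have h5 := le_abs_self (a.1 k - b.1 k)
    linarith
  let g : ℕ → ℝ := fun k => ∑ a ∈ hs.toFinset, |a.1 k|
  have hg : Tendsto g cofinite (𝓝 0) := by
    have := tendsto_finsetSum hs.toFinset (fun a _ => (c0_tendsto a.1).abs)
    simpa using this
  have hgle : ∀ k, ∀ a ∈ s, |a.1 k| ≤ g k := fun k a ha =>
    Finset.single_le_sum (f := fun a : c0 × ℝ => |a.1 k|) (fun a _ => abs_nonneg _)
      (hs.mem_toFinset.2 ha)
  let y : ℕ → ℝ := fun k => max (lo k) (min 0 (hi k))
  have hy : Tendsto y cofinite (𝓝 0) := by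
    refine tendsto_of_abs_le y g hg fun k => ?_
    obtain ⟨a, ha, h1⟩ := hlo' k
    obtain ⟨b, hb, h2⟩ := hhi' k
    have h3 := hgle k a ha
    have h4 := hgle k b hb
    have h5 := hr a ha
    have h6 := hr b hb
    have h7 := le_abs_self (a.1 k)
    have h8 := neg_abs_le (b.1 k)
    have h9 := le_abs_self (g k)
    have h10 := abs_nonneg (g k)
    rw [abs_le]
    constructor
    · refine le_max_of_le_right (le_min ?_ ?_) <;> linarith
    · refine max_le ?_ (min_le_of_left_le h10)
      linarith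
  refine ⟨mk0 y hy, fun a ha => c0_dist_le _ _ _ (hr a ha) fun k => ?_⟩
  have h1 := hlo k a ha
  have h2 := hhi k a ha
  have h3 : lo k ≤ y k := le_max_left _ _
  have h4 : y k ≤ hi k := max_le (hlohi k) (min_le_right _ _)
  rw [mk0_apply, abs_le]
  constructor <;> linarith

/-- Aharoni's theorem: every separable metric space bi-Lipschitz embeds into `c0`. -/
theorem aharoni (M : Type*) [PseudoMetricSpace M] [TopologicalSpace.SeparableSpace M]
    [Nonempty M] :
    ∃ s : M → c0, LipschitzWith 1 s ∧ ∀ a b, dist a b ≤ (24 : NNReal) * dist (s a) (s b) := by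
  classical
  let w : ℕ → M := TopologicalSpace.denseSeq M
  have hw : DenseRange w := TopologicalSpace.denseRange_denseSeq M
  let τ : ℕ ≃ ℤ × ℕ := (Denumerable.eqv (ℤ × ℕ)).symm
  let φ : M → ℤ × ℕ → ℝ := fun z t => max 0 (cut w ((2 : ℝ) ^ t.1) z (t.2 + 1))
  have hφ0 : ∀ z t, 0 ≤ φ z t := fun z t => le_max_left _ _
  have hpos : ∀ n : ℤ, (0 : ℝ) < 2 ^ n := fun n => zpow_pos two_pos n
  have hfin : ∀ z, ∀ ε > 0, {t | ε ≤ φ z t}.Finite := by
    intro z ε hε
    obtain ⟨a, ha⟩ : ∃ a : ℤ, 3 * (2 : ℝ) ^ a < ε := by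
      obtain ⟨n, hn⟩ := exists_pow_lt_of_lt_one (show 0 < ε / 3 by linarith)
        (show (1 / 2 : ℝ) < 1 by norm_num)
      refine ⟨-(n : ℤ), ?_⟩
      have : (2 : ℝ) ^ (-(n : ℤ)) = (1 / 2) ^ n := by
        rw [zpow_neg, zpow_natCast, one_div, inv_pow]
      rw [this]
      linarith
    obtain ⟨b, hb⟩ : ∃ b : ℤ, dist z (w 0) < (2 : ℝ) ^ b := by
      obtain ⟨n, hn⟩ := pow_unbounded_of_one_lt (dist z (w 0)) (show (1 : ℝ) < 2 by norm_num)
      exact ⟨n, by rwa [zpow_natCast]⟩
    have hj : ∀ n : ℤ, ∃ j, dist z (w j) < (2 : ℝ) ^ n := fun n => hw.exists_dist_lt z (hpos n)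
    choose j hj using hj
    have hsub : {t | ε ≤ φ z t} ⊆ ⋃ n ∈ Icc a b, (fun k => (n, k)) '' Iic (j n) := by
      rintro ⟨n, k⟩ ht
      have h1 : ε ≤ cut w ((2 : ℝ) ^ n) z (k + 1) := by
        rcases le_max_iff.1 (show ε ≤ max 0 (cut w ((2 : ℝ) ^ n) z (k + 1)) from ht) with h | h
        · linarith
        · exact h
      have h2 := cut_le w ((2 : ℝ) ^ n) z (k + 1)
      have h3 := cut_le_of_lt w ((2 : ℝ) ^ n) z (Nat.succ_pos k)
      have h4 : 0 ≤ dist z (w (k + 1)) := dist_nonneg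
      have h5 := hpos n
      simp only [mem_iUnion, mem_Icc, mem_image, mem_Iic, Prod.mk.injEq, exists_prop]
      refine ⟨n, ⟨?_, ?_⟩, k, ?_, rfl, rfl⟩
      · by_contra h
        have := zpow_le_zpow_right₀ (show (1 : ℝ) ≤ 2 by norm_num) (not_le.1 h).le
        linarith
      · by_contra h
        have := zpow_le_zpow_right₀ (show (1 : ℝ) ≤ 2 by norm_num) (not_le.1 h).le
        linarith
      · by_contra h
        have h6 := cut_le_of_lt w ((2 : ℝ) ^ n) z
          (show j n < k + 1 from Nat.lt_succ_of_lt (not_le.1 h))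
        have h7 := hj n
        linarith
    exact ((finite_Icc a b).biUnion fun n _ => (finite_Iic _).image _).subset hsub
  have ht : ∀ z, Tendsto (fun m => φ z (τ m)) cofinite (𝓝 0) := by
    intro z
    rw [Metric.tendsto_nhds]
    intro ε hε
    have h1 : (τ ⁻¹' {t | ε ≤ φ z t}).Finite := (hfin z ε hε).preimage τ.injective.injOn
    filter_upwards [h1.compl_mem_cofinite] with m hm
    have h2 : φ z (τ m) < ε := by simpa using hm
    rwa [Real.dist_eq, sub_zero, abs_of_nonneg (hφ0 _ _)]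
  have hlip : ∀ z z' t, |φ z t - φ z' t| ≤ dist z z' := by
    intro z z' t
    have h1 := cut_lip w ((2 : ℝ) ^ t.1) ((2 : ℝ) ^ t.1) z z' (t.2 + 1)
    have h2 := cut_lip w ((2 : ℝ) ^ t.1) ((2 : ℝ) ^ t.1) z' z (t.2 + 1)
    simp only [sub_self, abs_zero, mul_zero, add_zero] at h1 h2
    rw [dist_comm z' z] at h2
    refine (abs_max_sub_max_le_max _ _ _ _).trans (max_le (by simp) ?_)
    rw [abs_le]
    constructor <;> linarith
  refine ⟨fun z => mk0 _ (ht z), LipschitzWith.of_dist_le_mul fun z z' => ?_, fun a b => ?_⟩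
  · simpa using c0_dist_le _ _ _ dist_nonneg fun k => hlip z z' (τ k)
  · have hkey : ∀ (a b : M) (n : ℤ) (k : ℕ), 6 * (2 : ℝ) ^ n ≤ dist a b →
        dist a (w (k + 1)) < 5 / 2 * (2 : ℝ) ^ n →
        (2 : ℝ) ^ n / 2 ≤ cut w ((2 : ℝ) ^ n) a (k + 1) →
        (2 : ℝ) ^ n / 2 ≤ dist (mk0 _ (ht a)) (mk0 _ (ht b)) := by
      intro a b n k h1 h2 h3
      have h4 := c0_sub_le (mk0 _ (ht a)) (mk0 _ (ht b)) (τ.symm (n, k))
      simp only [mk0_apply, Equiv.apply_symm_apply] at h4
      have h5 := cut_le w ((2 : ℝ) ^ n) b (k + 1)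
      have h6 := dist_triangle_right a b (w (k + 1))
      have h7 := hpos n
      have h8 : φ b (n, k) = 0 := max_eq_left (by dsimp only; linarith)
      have h9 : (2 : ℝ) ^ n / 2 ≤ φ a (n, k) := le_max_of_le_right h3
      rw [h8, sub_zero] at h4
      exact h9.trans ((le_abs_self _).trans h4)
    rcases eq_or_lt_of_le (dist_nonneg (x := a) (y := b)) with h0 | h0
    · rw [← h0]
      positivity
    obtain ⟨n, hn1, hn2⟩ := exists_mem_Ico_zpow (show 0 < dist a b / 6 by linarith)
      (show (1 : ℝ) < 2 by norm_num)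
    rw [zpow_add_one₀ two_ne_zero] at hn2
    have h7 := hpos n
    have hex : ∀ z, ∃ j, dist z (w j) < 5 / 2 * (2 : ℝ) ^ n := fun z =>
      hw.exists_dist_lt z (by linarith)
    obtain ⟨ka, ha1, ha2⟩ := exists_cut_big w ((2 : ℝ) ^ n) a (hex a)
    obtain ⟨kb, hb1, hb2⟩ := exists_cut_big w ((2 : ℝ) ^ n) b (hex b)
    have h24 : ((24 : NNReal) : ℝ) = 24 := by norm_num
    rw [h24]
    rcases ka with _ | ka
    · rcases kb with _ | kb
      · have := dist_triangle_right a b (w 0)
        linarith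
      · have := hkey b a n kb (by rw [dist_comm]; linarith) hb1 hb2
        rw [dist_comm] at this
        linarith
    · have := hkey a b n ka (by linarith) ha1 ha2
      linarith

section Wedge

/-- the `n`-th copy of `c0` inside `c0` -/
noncomputable def jj (n : ℕ) (x : c0) : c0 :=
  mk0 (fun k => if k % 2 = 1 then x (k / 2) else if k = 2 * n then ‖x‖ else 0) (by
    have h1 : Tendsto (fun k : ℕ => x (k / 2)) cofinite (𝓝 0) := by
      refine (c0_tendsto x).comp ?_
      rw [Nat.cofinite_eq_atTop]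
      exact Nat.tendsto_div_const_atTop two_ne_zero
    rw [tendsto_zero_iff_abs_tendsto_zero] at h1 ⊢
    refine squeeze_zero' (Eventually.of_forall fun k => abs_nonneg _) ?_ h1
    filter_upwards [(finite_singleton (2 * n)).compl_mem_cofinite] with k hk
    have hk' : k ≠ 2 * n := by simpa using hk
    simp only [Function.comp, hk', if_false]
    split_ifs <;> simp)

theorem jj_odd (n : ℕ) (x : c0) (i : ℕ) : jj n x (2 * i + 1) = x i := by
  have h1 : (2 * i + 1) % 2 = 1 := by omega
  have h2 : (2 * i + 1) / 2 = i := by omega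
  simp [jj, h1, h2]

theorem jj_even (n : ℕ) (x : c0) (m : ℕ) : jj n x (2 * m) = if m = n then ‖x‖ else 0 := by
  have h1 : ¬ (2 * m) % 2 = 1 := by omega
  simp [jj]

theorem jj_zero (n : ℕ) : jj n 0 = 0 := by
  ext k
  simp [jj]

theorem jj_lip (n : ℕ) : LipschitzWith 1 (jj n) := by
  refine LipschitzWith.of_dist_le_mul fun x y => ?_
  simp only [NNReal.coe_one, one_mul]
  refine c0_dist_le _ _ _ dist_nonneg fun k => ?_
  simp only [jj, mk0_apply]
  split_ifs
  · exact c0_sub_le x y _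
  · rw [dist_eq_norm]
    exact abs_norm_sub_norm_le x y
  · simp

/-- the even coordinates with the `n`-th one removed -/
noncomputable def ev (n : ℕ) (z : c0) : c0 :=
  mk0 (fun m => if m = n then 0 else z (2 * m)) (by
    have h1 : Tendsto (fun k : ℕ => z (2 * k)) cofinite (𝓝 0) :=
      (c0_tendsto z).comp (Function.Injective.tendsto_cofinite (fun a b h => by omega))
    refine tendsto_of_abs_le _ _ h1 fun k => ?_
    split_ifs <;> simp)

theorem ev_dist (n : ℕ) (z z' : c0) : dist (ev n z) (ev n z') ≤ dist z z' := by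
  refine c0_dist_le _ _ _ dist_nonneg fun k => ?_
  simp only [ev, mk0_apply]
  split_ifs
  · simp
  · exact c0_sub_le z z' _

/-- the radius used by the `n`-th retraction -/
noncomputable def al (n : ℕ) (z : c0) : ℝ := max 0 (z (2 * n) - ‖ev n z‖)

theorem al_nonneg (n : ℕ) (z : c0) : 0 ≤ al n z := le_max_left _ _

theorem al_lip (n : ℕ) (z z' : c0) : |al n z - al n z'| ≤ 2 * dist z z' := by
  refine (abs_max_sub_max_le_max _ _ _ _).trans (max_le (by simp) ?_)
  have h1 := c0_sub_le z z' (2 * n)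
  have h2 := abs_norm_sub_norm_le (ev n z) (ev n z')
  have h3 := ev_dist n z z'
  rw [dist_eq_norm (ev n z)] at h3
  rw [abs_le] at h1 h2 ⊢
  constructor <;> linarith [h1.1, h1.2, h2.1, h2.2]

theorem al_unique (z : c0) {n m : ℕ} (hn : 0 < al n z) (hm : 0 < al m z) : n = m := by
  by_contra h
  have h1 : 0 < z (2 * n) - ‖ev n z‖ := by
    rcases lt_max_iff.1 hn with h | h
    · exact absurd h (lt_irrefl _)
    · exact h
  have h2 : 0 < z (2 * m) - ‖ev m z‖ := by
    rcases lt_max_iff.1 hm with h | h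
    · exact absurd h (lt_irrefl _)
    · exact h
  have h3 := c0_apply_le (ev n z) m
  have h4 := c0_apply_le (ev m z) n
  simp only [ev, mk0_apply, h, Ne.symm h, if_false] at h3 h4
  have h5 := le_abs_self (z (2 * n))
  have h6 := le_abs_self (z (2 * m))
  simp only [ev] at h1 h2
  linarith

/-- the `n`-th retraction -/
noncomputable def qq (n : ℕ) (z : c0) : c0 :=
  mk0 (fun i => max (-al n z) (min (al n z) (z (2 * i + 1)))) (by
    have h1 : Tendsto (fun k : ℕ => z (2 * k + 1)) cofinite (𝓝 0) :=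
      (c0_tendsto z).comp (Function.Injective.tendsto_cofinite (fun a b h => by omega))
    refine tendsto_of_abs_le _ _ h1 fun k => ?_
    have h2 := al_nonneg n z
    have h3 := le_abs_self (z (2 * k + 1))
    have h4 := neg_abs_le (z (2 * k + 1))
    have h5 := abs_nonneg (z (2 * k + 1))
    rw [abs_le]
    constructor
    · refine le_max_of_le_right (le_min ?_ ?_) <;> linarith
    · refine max_le ?_ (min_le_of_right_le h3)
      linarith)

theorem qq_dist (n : ℕ) (z z' : c0) : dist (qq n z) (qq n z') ≤ 2 * dist z z' := by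
  have h0 : 0 ≤ dist z z' := dist_nonneg
  refine c0_dist_le _ _ _ (by linarith) fun k => ?_
  simp only [qq, mk0_apply]
  have h1 := al_lip n z z'
  have h2 := c0_sub_le z z' (2 * k + 1)
  refine (abs_max_sub_max_le_max _ _ _ _).trans (max_le ?_ ?_)
  · rw [neg_sub_neg, abs_sub_comm]
    exact h1
  · refine (abs_min_sub_min_le_max _ _ _ _).trans (max_le h1 ?_)
    linarith

theorem qq_lip (n : ℕ) : LipschitzWith 2 (qq n) :=
  LipschitzWith.of_dist_le_mul fun z z' => by simpa using qq_dist n z z'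

theorem qq_eq_zero (n : ℕ) (z : c0) (h : al n z = 0) : qq n z = 0 := by
  ext k
  simp [qq, h]

theorem qq_jj (n m : ℕ) (x : c0) : qq n (jj m x) = if n = m then x else 0 := by
  split_ifs with h
  · subst h
    have h1 : ev n (jj n x) = 0 := by
      ext k
      simp only [ev, mk0_apply, jj_even]
      split_ifs <;> simp
    have h2 : al n (jj n x) = ‖x‖ := by
      simp [al, h1, jj_even]
    ext k
    have h3 := abs_le.1 (c0_apply_le x k)
    simp only [qq, mk0_apply, h2, jj_odd]
    rw [min_eq_right h3.2, max_eq_right h3.1]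
  · apply qq_eq_zero
    simp [al, jj_even, h]

theorem qq_zero (n : ℕ) : qq n 0 = 0 := by
  have := qq_jj n n 0
  rwa [jj_zero, if_pos rfl] at this

theorem qq_sum (I : Finset ℕ) (z z' : c0) :
    ∑ n ∈ I, dist (qq n z) (qq n z') ≤ 4 * dist z z' := by
  classical
  have h0 : 0 ≤ dist z z' := dist_nonneg
  have hcard : ∀ y : c0, (I.filter (fun n => 0 < al n y)).card ≤ 1 := fun y =>
    Finset.card_le_one.2 fun a ha b hb =>
      al_unique y (Finset.mem_filter.1 ha).2 (Finset.mem_filter.1 hb).2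
  have h1 : ∑ n ∈ I, dist (qq n z) (qq n z') =
      ∑ n ∈ I.filter (fun n => 0 < al n z) ∪ I.filter (fun n => 0 < al n z'),
        dist (qq n z) (qq n z') := by
    symm
    apply Finset.sum_subset
    · exact Finset.union_subset (Finset.filter_subset _ _) (Finset.filter_subset _ _)
    · intro n hn h
      simp only [Finset.mem_union, Finset.mem_filter, hn, true_and, not_or, not_lt] at h
      rw [qq_eq_zero n z (le_antisymm h.1 (al_nonneg _ _)),
        qq_eq_zero n z' (le_antisymm h.2 (al_nonneg _ _)), dist_self]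
  rw [h1]
  refine (Finset.sum_le_card_nsmul _ _ _ fun n _ => qq_dist n z z').trans ?_
  have h2 := (Finset.card_union_le (I.filter (fun n => 0 < al n z))
    (I.filter (fun n => 0 < al n z'))).trans (add_le_add (hcard z) (hcard z'))
  have h3 : ((I.filter (fun n => 0 < al n z) ∪ I.filter (fun n => 0 < al n z')).card : ℝ) ≤ 2 := by
    exact_mod_cast h2
  rw [nsmul_eq_mul]
  nlinarith

end Wedge

end Pool.Agent.H936Z.Holmes
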