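import Mathlib
import Pool.Agent.H936Z.HolmesC0

set_option autoImplicit false

open Metric Set Filter Topology

namespace Pool.Agent.H936Z.Holmes

/-- `(E, δ)` realises the Lipschitz-free space over `(M, m₀)`. -/
structure IsFree {M : Type*} [PseudoMetricSpace M] (m₀ : M) {E : Type*} [NormedAddCommGroup E]
    [NormedSpace ℝ E] (δ : M → E) : Prop where
  base : δ m₀ = 0
  lip : LipschitzWith 1 δ
  dense : Dense ((Submodule.span ℝ (Set.range δ) : Submodule ℝ E) : Set E)
  ext : ∀ (K : NNReal) (f : M → ℝ), LipschitzWith K f → f m₀ = 0 →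
    ∃ φ : E →L[ℝ] ℝ, ‖φ‖ ≤ (K : ℝ) ∧ ∀ x, φ (δ x) = f x

section Free

variable {M : Type*} [PseudoMetricSpace M] {m₀ : M} {E : Type*} [NormedAddCommGroup E]
  [NormedSpace ℝ E] {δ : M → E}

theorem IsFree.clm_ext (h : IsFree m₀ δ) {Z : Type*} [NormedAddCommGroup Z] [NormedSpace ℝ Z]
    {S T : E →L[ℝ] Z} (hST : ∀ x, S (δ x) = T (δ x)) : S = T :=
  ContinuousLinearMap.ext_on h.dense (by rintro _ ⟨x, rfl⟩; exact hST x)

theorem IsFree.lift (h : IsFree m₀ δ) {Z : Type*} [NormedAddCommGroup Z] [NormedSpace ℝ Z]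
    [CompleteSpace Z] (g : M → Z) {K : NNReal} (hg : LipschitzWith K g) (h0 : g m₀ = 0) :
    ∃ T : E →L[ℝ] Z, (∀ μ, ‖T μ‖ ≤ K * ‖μ‖) ∧ ∀ x, T (δ x) = g x := by
  let D : (M →₀ ℝ) →ₗ[ℝ] E := Finsupp.linearCombination ℝ δ
  let G : (M →₀ ℝ) →ₗ[ℝ] Z := Finsupp.linearCombination ℝ g
  have hD : DenseRange D := by
    have h1 : Set.range D = (Submodule.span ℝ (Set.range δ) : Submodule ℝ E) := by
      rw [← Finsupp.range_linearCombination, LinearMap.coe_range]
    unfold DenseRange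
    rw [h1]
    exact h.dense
  have hnorm : ∀ v, ‖G v‖ ≤ K * ‖D v‖ := by
    intro v
    obtain ⟨ψ, hψ1, hψ2⟩ := exists_dual_vector'' ℝ (G v)
    have hl : LipschitzWith K (fun x => ψ (g x)) := by
      refine LipschitzWith.of_dist_le_mul fun x y => ?_
      rw [dist_eq_norm, ← map_sub]
      refine (ψ.le_opNorm _).trans ?_
      rw [← dist_eq_norm]
      have h1 := hg.dist_le_mul x y
      have h2 : 0 ≤ dist (g x) (g y) := dist_nonneg
      nlinarith
    obtain ⟨φ, hφ1, hφ2⟩ := h.ext K _ hl (by simp [h0])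
    have h3 : φ (D v) = ψ (G v) := by
      simp only [D, G, Finsupp.linearCombination_apply, Finsupp.sum, map_sum, map_smul, hφ2]
    have h4 : ψ (G v) = ‖G v‖ := by simpa using hψ2
    have h5 := φ.le_opNorm (D v)
    rw [h3, h4, norm_norm] at h5
    exact h5.trans (mul_le_mul_of_nonneg_right hφ1 (norm_nonneg _))
  refine ⟨G.extendOfNorm D, fun μ => LinearMap.norm_extendOfNorm_apply_le hD K hnorm μ,
    fun x => ?_⟩
  have h1 := LinearMap.extendOfNorm_eq hD ⟨K, hnorm⟩ (Finsupp.single x 1)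
  simpa [D, G] using h1

theorem IsFree.complemented [CompleteSpace E] (h : IsFree m₀ δ)
    {N : Type*} [PseudoMetricSpace N] {n₀ : N} {F : Type*} [NormedAddCommGroup F]
    [NormedSpace ℝ F] [CompleteSpace F] {δ' : N → F} (h' : IsFree n₀ δ')
    (s : N → M) (q : M → N) {K L : NNReal} (hs : LipschitzWith K s) (hq : LipschitzWith L q)
    (hqs : ∀ a, q (s a) = a) :
    ∃ (i : F →L[ℝ] E) (p : E →L[ℝ] F), ∀ y, p (i y) = y := by
  obtain ⟨i, -, hi⟩ := h'.lift (fun a => δ (s a) - δ (s n₀))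
    ((h.lip.comp hs).sub (LipschitzWith.const _)) (by simp)
  obtain ⟨p, -, hp⟩ := h.lift (fun a => δ' (q a) - δ' (q m₀))
    ((h'.lip.comp hq).sub (LipschitzWith.const _)) (by simp)
  have : p.comp i = ContinuousLinearMap.id ℝ F := by
    refine h'.clm_ext fun a => ?_
    simp [hi, hp, hqs, h'.base]
  exact ⟨i, p, fun y => by simpa using congrArg (fun T : F →L[ℝ] F => T y) this⟩

end Free

/-- The free space over `c0` contains a complemented `ℓ₁`-sum of copies of itself. -/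
theorem selfSimilar {E : Type*} [NormedAddCommGroup E] [NormedSpace ℝ E] [CompleteSpace E]
    {δ : c0 → E} (h : IsFree 0 δ) :
    ∃ J Q : ℕ → E →L[ℝ] E, (∀ n m y, Q n (J m y) = if n = m then y else 0) ∧
      (∀ n y, ‖J n y‖ ≤ 4 * ‖y‖) ∧ ∀ (I : Finset ℕ) y, ∑ n ∈ I, ‖Q n y‖ ≤ 4 * ‖y‖ := by
  classical
  have hJ := fun n => h.lift (fun x => δ (jj n x)) (h.lip.comp (jj_lip n))
    (by simp [jj_zero, h.base])
  have hQ := fun n => h.lift (fun x => δ (qq n x)) (h.lip.comp (qq_lip n))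
    (by simp [qq_zero, h.base])
  choose J hJ1 hJ2 using hJ
  choose Q hQ1 hQ2 using hQ
  refine ⟨J, Q, fun n m y => ?_, fun n y => ?_, fun I y => ?_⟩
  · have : (Q n).comp (J m) = if n = m then ContinuousLinearMap.id ℝ E else 0 := by
      refine h.clm_ext fun x => ?_
      simp only [ContinuousLinearMap.comp_apply, hJ2, hQ2, qq_jj]
      split_ifs <;> simp [h.base]
    have h2 := congrArg (fun T : E →L[ℝ] E => T y) this
    simp only [ContinuousLinearMap.comp_apply] at h2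
    rw [h2]
    split_ifs <;> simp
  · have h1 := hJ1 n y
    have h2 := norm_nonneg y
    simp only [mul_one, NNReal.coe_one, one_mul] at h1
    linarith
  · have hψ := fun n => exists_dual_vector'' ℝ (Q n y)
    choose ψ hψ1 hψ2 using hψ
    have hl : LipschitzWith 4 (fun x => ∑ n ∈ I, ψ n (δ (qq n x))) := by
      refine LipschitzWith.of_dist_le_mul fun x x' => ?_
      rw [dist_eq_norm, ← Finset.sum_sub_distrib]
      refine (norm_sum_le _ _).trans ?_
      refine le_trans (Finset.sum_le_sum fun n _ => ?_) (by simpa using qq_sum I x x')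
      rw [← map_sub]
      refine ((ψ n).le_opNorm _).trans ?_
      rw [← dist_eq_norm]
      have h1 := h.lip.dist_le_mul (qq n x) (qq n x')
      have h2 : 0 ≤ dist (δ (qq n x)) (δ (qq n x')) := dist_nonneg
      have h3 := hψ1 n
      simp only [NNReal.coe_one, one_mul] at h1
      nlinarith
    obtain ⟨φ, hφ1, hφ2⟩ := h.ext 4 _ hl (by simp [qq_zero, h.base])
    have h3 : φ = ∑ n ∈ I, (ψ n).comp (Q n) := by
      refine h.clm_ext fun x => ?_
      simp [hφ2, hQ2]
    have h4 : φ y = ∑ n ∈ I, ‖Q n y‖ := by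
      rw [h3]
      simp only [ContinuousLinearMap.coe_sum', Finset.sum_apply, ContinuousLinearMap.comp_apply]
      refine Finset.sum_congr rfl fun n _ => ?_
      simpa using hψ2 n
    rw [← h4]
    refine (le_abs_self _).trans ((φ.le_opNorm y).trans ?_)
    exact mul_le_mul_of_nonneg_right (by simpa using hφ1) (norm_nonneg _)

section Swindle

variable {Y : Type*} [NormedAddCommGroup Y] [NormedSpace ℝ Y] [CompleteSpace Y]

theorem exists_sumOp (J R : ℕ → Y →L[ℝ] Y) (C D : ℝ) (hC : 0 ≤ C)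
    (hJ : ∀ n y, ‖J n y‖ ≤ C * ‖y‖) (hR : ∀ (I : Finset ℕ) y, ∑ n ∈ I, ‖R n y‖ ≤ D * ‖y‖) :
    ∃ S : Y →L[ℝ] Y, ∀ y, HasSum (fun n => J n (R n y)) (S y) := by
  have hs0 : ∀ y, Summable fun n => ‖R n y‖ := fun y =>
    summable_of_sum_le (fun n => norm_nonneg _) (fun I => hR I y)
  have hs1 : ∀ y, Summable fun n => ‖J n (R n y)‖ := fun y =>
    Summable.of_nonneg_of_le (fun n => norm_nonneg _) (fun n => hJ n _) ((hs0 y).mul_left C)
  have hs : ∀ y, Summable fun n => J n (R n y) := fun y => (hs1 y).of_norm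
  let L : Y →ₗ[ℝ] Y :=
    { toFun := fun y => ∑' n, J n (R n y)
      map_add' := fun a b => by
        simp only [map_add]
        exact (hs a).tsum_add (hs b)
      map_smul' := fun c a => by
        simp only [map_smul, RingHom.id_apply]
        exact (hs a).tsum_const_smul c }
  refine ⟨L.mkContinuous (C * D) fun y => ?_, fun y => (hs y).hasSum⟩
  refine (norm_tsum_le_tsum_norm (hs1 y)).trans ?_
  refine (hs1 y).tsum_le_of_sum_le fun I => ?_
  refine (Finset.sum_le_sum fun n _ => hJ n (R n y)).trans ?_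
  rw [← Finset.mul_sum, mul_assoc]
  exact mul_le_mul_of_nonneg_left (hR I y) hC

theorem swindle (J Q : ℕ → Y →L[ℝ] Y) (hQJ : ∀ n m y, Q n (J m y) = if n = m then y else 0)
    (hJ : ∀ n y, ‖J n y‖ ≤ 4 * ‖y‖) (hQ : ∀ (I : Finset ℕ) y, ∑ n ∈ I, ‖Q n y‖ ≤ 4 * ‖y‖)
    {Z : Type*} [NormedAddCommGroup Z] [NormedSpace ℝ Z] (i : Z →L[ℝ] Y) (p : Y →L[ℝ] Z)
    (hpi : ∀ z, p (i z) = z) : Nonempty ((Y × Z) ≃L[ℝ] Y) := by
  classical
  let π : Y →L[ℝ] Y := i.comp p
  have hππ : ∀ y, π (π y) = π y := fun y => by simp [π, hpi]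
  have hπi : ∀ z, π (i z) = i z := fun z => by simp [π, hpi]
  have hpπ : ∀ y, p (π y) = p y := fun y => by simp [π, hpi]
  have hR : ∀ (I : Finset ℕ) y, ∑ n ∈ I, ‖(π.comp (Q n)) y‖ ≤ (‖π‖ * 4) * ‖y‖ := by
    intro I y
    refine (Finset.sum_le_sum fun n _ => π.le_opNorm (Q n y)).trans ?_
    rw [← Finset.mul_sum, mul_assoc]
    exact mul_le_mul_of_nonneg_left (hQ I y) (norm_nonneg _)
  have hR' : ∀ (I : Finset ℕ) y, ∑ n ∈ I, ‖(π.comp (Q (n + 1))) y‖ ≤ (‖π‖ * 4) * ‖y‖ := by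
    intro I y
    have := hR (I.map ⟨Nat.succ, Nat.succ_injective⟩) y
    rwa [Finset.sum_map] at this
  obtain ⟨A, hA⟩ := exists_sumOp J (fun n => π.comp (Q n)) 4 _ (by norm_num) hJ hR
  obtain ⟨B, hB⟩ := exists_sumOp (fun n => J (n + 1)) (fun n => π.comp (Q n)) 4 _ (by norm_num)
    (fun n => hJ (n + 1)) hR
  obtain ⟨D, hD⟩ := exists_sumOp J (fun n => π.comp (Q (n + 1))) 4 _ (by norm_num) hJ hR'
  simp only [ContinuousLinearMap.comp_apply] at hA hB hD
  have hQA : ∀ k y, Q k (A y) = π (Q k y) := by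
    intro k y
    refine ((hA y).mapL (Q k)).unique ?_
    simp only [hQJ]
    convert hasSum_ite_eq k (π (Q k y)) using 2 with n
    by_cases h : k = n
    · simp [h]
    · simp [h, Ne.symm h]
  have hQD : ∀ k y, Q k (D y) = π (Q (k + 1) y) := by
    intro k y
    refine ((hD y).mapL (Q k)).unique ?_
    simp only [hQJ]
    convert hasSum_ite_eq k (π (Q (k + 1) y)) using 2 with n
    by_cases h : k = n
    · simp [h]
    · simp [h, Ne.symm h]
  have hQB0 : ∀ y, Q 0 (B y) = 0 := by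
    intro y
    refine ((hB y).mapL (Q 0)).unique ?_
    simp only [hQJ]
    simpa using hasSum_zero
  have hQB : ∀ k y, Q (k + 1) (B y) = π (Q k y) := by
    intro k y
    refine ((hB y).mapL (Q (k + 1))).unique ?_
    simp only [hQJ]
    convert hasSum_ite_eq k (π (Q k y)) using 2 with n
    by_cases h : k = n
    · simp [h]
    · simp [h, Ne.symm h]
  let Φ : (Y × Z) →L[ℝ] Y := (ContinuousLinearMap.id ℝ Y - A + B).coprod ((J 0).comp i)
  let Ψ : Y →L[ℝ] (Y × Z) := (ContinuousLinearMap.id ℝ Y - A + D).prod (p.comp (Q 0))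
  have hΦ : ∀ y z, Φ (y, z) = y - A y + B y + J 0 (i z) := fun y z => by simp [Φ]
  have hΨ : ∀ y, Ψ y = (y - A y + D y, p (Q 0 y)) := fun y => by simp [Ψ]
  refine ⟨ContinuousLinearEquiv.equivOfInverse Φ Ψ ?_ ?_⟩
  · rintro ⟨y, z⟩
    have h0 : π (Q 0 (Φ (y, z))) = i z := by
      simp [hΦ, hQA, hQB0, hQJ, hππ, hπi]
    have h1 : ∀ k, π (Q (k + 1) (Φ (y, z))) = π (Q k y) := by
      intro k
      simp [hΦ, hQA, hQB, hQJ, hππ]
    have h2 : A (Φ (y, z)) = J 0 (i z) + B y := by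
      refine (hA _).unique ?_
      rw [← hasSum_nat_add_iff' 1]
      simpa [h0, h1] using hB y
    have h3 : D (Φ (y, z)) = A y := by
      refine (hD _).unique ?_
      simpa [h1] using hA y
    rw [hΨ, h2, h3, ← hpπ, h0, hpi, hΦ]
    congr 1
    abel
  · intro y
    have h1 : ∀ k, π (Q k (y - A y + D y)) = π (Q (k + 1) y) := by
      intro k
      simp [hQA, hQD, hππ]
    have h2 : A (y - A y + D y) = D y := by
      refine (hA _).unique ?_
      simpa only [h1] using hD y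
    have h3 : B (y - A y + D y) = A y - J 0 (π (Q 0 y)) := by
      refine (hB _).unique ?_
      have := (hasSum_nat_add_iff' 1).2 (hA y)
      simpa only [h1, Finset.range_one, Finset.sum_singleton] using this
    rw [hΨ, hΦ, h2, h3]
    change _ + J 0 (π (Q 0 y)) = y
    abel

theorem pelczynski (J Q : ℕ → Y →L[ℝ] Y) (hQJ : ∀ n m y, Q n (J m y) = if n = m then y else 0)
    (hJ : ∀ n y, ‖J n y‖ ≤ 4 * ‖y‖) (hQ : ∀ (I : Finset ℕ) y, ∑ n ∈ I, ‖Q n y‖ ≤ 4 * ‖y‖)
    {X : Type*} [NormedAddCommGroup X] [NormedSpace ℝ X] (i : X →L[ℝ] Y) (p : Y →L[ℝ] X)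
    (hpi : ∀ z, p (i z) = z) (i' : Y →L[ℝ] X) (p' : X →L[ℝ] Y) (hpi' : ∀ z, p' (i' z) = z) :
    Nonempty (Y ≃L[ℝ] X) := by
  obtain ⟨e1⟩ := swindle J Q hQJ hJ hQ i p hpi
  obtain ⟨e2⟩ := swindle J Q hQJ hJ hQ (ContinuousLinearMap.id ℝ Y) (ContinuousLinearMap.id ℝ Y)
    (fun _ => rfl)
  let e3 := ContinuousLinearEquiv.equivOfRightInverse p' i' hpi'
  exact ⟨e1.symm.trans ((((ContinuousLinearEquiv.refl ℝ Y).prodCongr e3).trans
    (ContinuousLinearEquiv.prodAssoc ℝ Y Y _).symm).trans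
    ((e2.prodCongr (ContinuousLinearEquiv.refl ℝ _)).trans e3.symm))⟩

end Swindle

/-- A universal, finitely homogeneous metric space has the finite binary intersection
property. -/
theorem finHelly_of_urysohn (U : Type) [MetricSpace U]
    (h1 : ∀ (X : Type) [MetricSpace X] [TopologicalSpace.SeparableSpace X],
        ∃ f : X → U, Isometry f)
    (h2 : ∀ (s : Set U), s.Finite → ∀ g : s → U, Isometry g →
        ∃ h : U ≃ᵢ U, ∀ x : s, h (x : U) = g x) (u₀ : U) : FinHelly U := by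
  classical
  intro s hs h
  rcases s.eq_empty_or_nonempty with rfl | hne
  · exact ⟨u₀, by simp⟩
  have hne' : hs.toFinset.Nonempty := by simpa using hne
  have ht : (Prod.fst '' s).Finite := hs.image _
  have := ht.fintype
  obtain ⟨f, hf⟩ := h1 ((Prod.fst '' s) → ℝ)
  let κ : U → (Prod.fst '' s) → ℝ := fun x j => dist x j
  have hκ : Isometry (fun x : (Prod.fst '' s) => κ x) := by
    refine Isometry.of_dist_eq fun x y => le_antisymm ?_ ?_
    · refine (dist_pi_le_iff dist_nonneg).2 fun j => ?_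
      exact abs_dist_sub_le (x : U) y j
    · have := dist_le_pi_dist (κ x) (κ y) y
      simpa [κ, Real.dist_eq, Subtype.dist_eq] using this
  obtain ⟨e, he⟩ := h2 _ ht (fun x => f (κ x)) (hf.comp hκ)
  let z : (Prod.fst '' s) → ℝ := fun j => hs.toFinset.sup' hne' (fun a => dist a.1 j - a.2)
  refine ⟨e.symm (f z), fun a ha => ?_⟩
  have hr : 0 ≤ a.2 := by
    have := h a ha a ha
    rw [dist_self] at this
    linarith
  rw [← e.dist_eq, e.apply_symm_apply, he ⟨a.1, a, ha, rfl⟩, hf.dist_eq]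
  refine (dist_pi_le_iff hr).2 fun j => ?_
  have h3 : dist a.1 j - a.2 ≤ z j :=
    Finset.le_sup' (fun a : U × ℝ => dist a.1 j - a.2) (hs.mem_toFinset.2 ha)
  obtain ⟨b, hb, h4⟩ := Finset.exists_mem_eq_sup' hne' (fun a : U × ℝ => dist a.1 j - a.2)
  have h5 : z j = dist b.1 j - b.2 := h4
  have h6 := h a ha b (hs.mem_toFinset.1 hb)
  have h7 := dist_triangle_left b.1 j a.1
  rw [Real.dist_eq, abs_le]
  constructor
  · change -a.2 ≤ z j - dist a.1 j
    linarith
  · change z j - dist a.1 j ≤ a.2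
    linarith

/-- If `U` is complete, separable, has the finite binary intersection property and contains a
bi-Lipschitz copy of `c0`, then its free space is isomorphic to the free space over `c0`. -/
theorem free_iso {U : Type*} [MetricSpace U] [CompleteSpace U] [TopologicalSpace.SeparableSpace U]
    (hU : FinHelly U) (e : c0 → U) {K L : NNReal} (he : LipschitzWith K e)
    (he' : ∀ a b, dist a b ≤ L * dist (e a) (e b)) {u₀ : U}
    {E : Type*} [NormedAddCommGroup E] [NormedSpace ℝ E] [CompleteSpace E]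
    {F : Type*} [NormedAddCommGroup F] [NormedSpace ℝ F] [CompleteSpace F]
    {δ₁ : c0 → E} {δ₂ : U → F} (h₁ : IsFree 0 δ₁) (h₂ : IsFree u₀ δ₂) :
    Nonempty (E ≃L[ℝ] F) := by
  have : Nonempty U := ⟨u₀⟩
  obtain ⟨s, hs, hs'⟩ := aharoni U
  obtain ⟨q, hq, hqs⟩ := exists_lipschitz_ext hU s hs.continuous id 24 hs'
  obtain ⟨q', hq', hqs'⟩ := exists_lipschitz_ext c0_finHelly e he.continuous id L he'
  obtain ⟨i, p, hpi⟩ := h₁.complemented h₂ s q hs hq hqs
  obtain ⟨i', p', hpi'⟩ := h₂.complemented h₁ e q' he hq' hqs'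
  obtain ⟨J, Q, hQJ, hJ, hQ⟩ := selfSimilar h₁
  exact pelczynski J Q hQJ hJ hQ i p hpi i' p' hpi'

end Pool.Agent.H936Z.Holmes
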