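import Pool.Agent.H520Z.Sel.Defs2

set_option autoImplicit false

open MeasureTheory Set Filter Topology

namespace Pool.Agent.H936Z.Samp

open BoundedContinuousFunction

theorem dual_rep {V : Type*} [AddCommGroup V] [Module ℝ V] (T : ℕ → V →ₗ[ℝ] ℝ)
    (hT : ∀ h, Tendsto (fun j => T j h) atTop (𝓝 0)) (φ : V →ₗ[ℝ] ℝ) (M : ℝ) (hM : 0 ≤ M)
    (hφ : ∀ h N, (∀ j, |T j h| ≤ N) → |φ h| ≤ M * N) :
    ∃ r : ℕ → ℝ, Summable (fun j => |r j|) ∧ ∑' j, |r j| ≤ M ∧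
      ∀ h, HasSum (fun j => r j * T j h) (φ h) := by
  classical
  have hb : ∀ h, ∃ C, ∀ j, ‖T j h‖ ≤ C := by
    intro h
    obtain ⟨C, hC⟩ := (hT h).norm.bddAbove_range
    exact ⟨C, fun j => hC ⟨j, rfl⟩⟩
  choose C hC using hb
  let T' : V →ₗ[ℝ] (ℕ →ᵇ ℝ) :=
    { toFun := fun h => ofNormedAddCommGroupDiscrete (fun j => T j h) (C h) (hC h)
      map_add' := fun a b => by ext j; simp
      map_smul' := fun a b => by ext j; simp }
  have hT' : ∀ h j, T' h j = T j h := fun h j => rfl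
  have hφ' : ∀ h, |φ h| ≤ M * ‖T' h‖ := fun h =>
    hφ h _ fun j => by rw [← hT']; exact norm_coe_le_norm (T' h) j
  have hmem : φ ∈ (LinearMap.ker T').dualAnnihilator := by
    rw [Submodule.mem_dualAnnihilator]
    intro h hh
    have := hφ' h
    rw [LinearMap.mem_ker.mp hh, norm_zero, mul_zero] at this
    exact abs_nonpos_iff.mp this
  rw [← LinearMap.range_dualMap_eq_dualAnnihilator_ker] at hmem
  obtain ⟨ψ, hψ⟩ := hmem
  have hψ' : ∀ h, ψ (T' h) = φ h := fun h => by rw [← hψ]; rfl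
  obtain ⟨g, hg1, hg2⟩ := exists_extension_of_le_sublinear
    (⟨LinearMap.range T', ψ.domRestrict _⟩ : (ℕ →ᵇ ℝ) →ₗ.[ℝ] ℝ) (fun x => M * ‖x‖)
    (fun c hc x => by
      rw [norm_smul, Real.norm_of_nonneg hc.le]; ring)
    (fun x y => by
      rw [← mul_add]; exact mul_le_mul_of_nonneg_left (norm_add_le x y) hM)
    (by
      rintro ⟨x, h, rfl⟩
      show ψ (T' h) ≤ M * ‖T' h‖
      rw [hψ']
      exact (le_abs_self _).trans (hφ' h))
  have hg3 : ∀ x, |g x| ≤ M * ‖x‖ := by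
    intro x
    rw [abs_le]
    refine ⟨?_, hg2 x⟩
    have := hg2 (-x)
    rw [map_neg, norm_neg] at this
    linarith
  have hg4 : ∀ h, g (T' h) = φ h := fun h => (hg1 ⟨T' h, h, rfl⟩).trans (hψ' h)
  let e : ℕ → (ℕ →ᵇ ℝ) := fun j =>
    ofNormedAddCommGroupDiscrete (fun i => if i = j then 1 else 0) 1
      (fun i => by split_ifs <;> simp)
  have he : ∀ j i, e j i = if i = j then 1 else 0 := fun j i => rfl
  have hsum : ∀ (s : Finset ℕ) (a : ℕ → ℝ) (i : ℕ),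
      (∑ j ∈ s, a j • e j) i = if i ∈ s then a i else 0 := by
    intro s a i
    rw [BoundedContinuousFunction.sum_apply]
    simp only [BoundedContinuousFunction.smul_apply, he, smul_eq_mul, mul_ite, mul_one, mul_zero]
    exact Finset.sum_ite_eq s i a
  have hfin : ∀ s : Finset ℕ, ∑ j ∈ s, |g (e j)| ≤ M := by
    intro s
    have h1 : ∑ j ∈ s, |g (e j)| = g (∑ j ∈ s, (SignType.sign (g (e j)) : ℝ) • e j) := by
      rw [map_sum]
      refine Finset.sum_congr rfl fun j _ => ?_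
      rw [map_smul, smul_eq_mul, sign_mul_self]
    have h2 : ‖∑ j ∈ s, (SignType.sign (g (e j)) : ℝ) • e j‖ ≤ 1 := by
      rw [norm_le zero_le_one]
      intro i
      rw [hsum s (fun j => (SignType.sign (g (e j)) : ℝ))]
      split_ifs
      · rcases lt_trichotomy (g (e i)) 0 with h | h | h <;> simp [h]
      · simp
    rw [h1]
    calc _ ≤ M * ‖∑ j ∈ s, (SignType.sign (g (e j)) : ℝ) • e j‖ := hg2 _
      _ ≤ M * 1 := mul_le_mul_of_nonneg_left h2 hM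
      _ = M := mul_one M
  refine ⟨fun j => g (e j), summable_of_sum_le (fun j => abs_nonneg _) hfin,
    Real.tsum_le_of_sum_le (fun j => abs_nonneg _) hfin, fun h => ?_⟩
  rw [HasSum, Metric.tendsto_nhds]
  intro δ hδ
  have h1 := (hT h).norm.eventually (gt_mem_nhds (show ‖(0 : ℝ)‖ < δ / (M + 1) by
    rw [norm_zero]; positivity))
  rw [eventually_atTop] at h1
  obtain ⟨J, hJ⟩ := h1
  refine (eventually_ge_atTop (Finset.range J)).mono fun s hs => ?_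
  have h2 : ∑ j ∈ s, g (e j) * T j h = g (∑ j ∈ s, T j h • e j) := by
    rw [map_sum]
    refine Finset.sum_congr rfl fun j _ => ?_
    rw [map_smul, smul_eq_mul, mul_comm]
  have h3 : ‖∑ j ∈ s, T j h • e j - T' h‖ ≤ δ / (M + 1) := by
    rw [norm_le (by positivity)]
    intro i
    rw [BoundedContinuousFunction.sub_apply, hsum s (fun j => T j h), hT']
    split_ifs with hi
    · rw [sub_self, norm_zero]; positivity
    · rw [zero_sub, norm_neg]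
      refine (hJ i ?_).le
      by_contra hlt
      exact hi (hs (Finset.mem_range.mpr (by omega)))
  rw [Real.dist_eq, h2, ← hg4, ← map_sub]
  calc _ ≤ M * ‖∑ j ∈ s, T j h • e j - T' h‖ := hg3 _
    _ ≤ M * (δ / (M + 1)) := mul_le_mul_of_nonneg_left h3 hM
    _ < δ := by
      rw [← mul_div_assoc, div_lt_iff₀ (by positivity)]
      nlinarith

theorem step_le {α : ℝ} (hα : 0 < α) (hα1 : α ≤ 1) (j : ℕ) :
    ((j : ℝ) + 2) ^ α ≤ ((j : ℝ) + 1) ^ α * (1 + 1 / ((j : ℝ) + 1)) := by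
  have hj : (0 : ℝ) < j + 1 := by positivity
  have e : (j : ℝ) + 2 = ((j : ℝ) + 1) * (1 + 1 / ((j : ℝ) + 1)) := by field_simp; ring
  have h1 : (1 : ℝ) ≤ 1 + 1 / ((j : ℝ) + 1) := by
    have : (0 : ℝ) ≤ 1 / ((j : ℝ) + 1) := by positivity
    linarith
  rw [e, Real.mul_rpow hj.le (by positivity)]
  gcongr
  calc _ ≤ (1 + 1 / ((j : ℝ) + 1)) ^ (1 : ℝ) := Real.rpow_le_rpow_of_exponent_le h1 hα1
    _ = _ := Real.rpow_one _

theorem exists_cell {ε α : ℝ} (hε : 0 < ε) (hα : 0 < α) {y : ℝ} (hy : ε ≤ y) :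
    ∃ j : ℕ, y ∈ Icc (ε * ((j : ℝ) + 1) ^ α) (ε * ((j : ℝ) + 2) ^ α) := by
  classical
  have ht : Tendsto (fun j : ℕ => ε * ((j : ℝ) + 2) ^ α) atTop atTop :=
    ((tendsto_rpow_atTop hα).comp
      (tendsto_atTop_add_const_right _ 2 tendsto_natCast_atTop_atTop)).const_mul_atTop hε
  have hex : ∃ j : ℕ, y ≤ ε * ((j : ℝ) + 2) ^ α := (ht.eventually_ge_atTop y).exists
  refine ⟨Nat.find hex, ?_, Nat.find_spec hex⟩
  rcases h : Nat.find hex with _ | k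
  · simpa using hy
  · have := Nat.find_min hex (show k < Nat.find hex by omega)
    push Not at this
    have e : ((k + 1 : ℕ) : ℝ) + 1 = (k : ℝ) + 2 := by push_cast; ring
    rw [e]
    exact this.le

theorem near_bound {h h' : ℝ → ℝ} {c1 K a b : ℝ} (hc1 : 0 < c1) (ha : 0 < a)
    (hd : ∀ y, 0 < y → HasDerivAt h (h' y) y) (hK : ∀ y, 0 < y → y ^ (c1 + 1) * |h' y| ≤ K)
    {x y : ℝ} (hx : x ∈ Icc a b) (hy : y ∈ Icc a b) :
    |h y - h x| ≤ K / a ^ (c1 + 1) * (b - a) := by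
  have hK0 : 0 ≤ K := le_trans (by positivity) (hK a ha)
  have h1 := (convex_Icc a b).norm_image_sub_le_of_norm_hasDerivWithin_le (f := h) (f' := h')
    (C := K / a ^ (c1 + 1)) (fun t ht => (hd t (ha.trans_le ht.1)).hasDerivWithinAt)
    (fun t ht => by
      rw [Real.norm_eq_abs, le_div_iff₀ (by positivity), mul_comm]
      refine le_trans ?_ (hK t (ha.trans_le ht.1))
      gcongr
      exact ht.1) hx hy
  refine h1.trans ?_
  gcongr
  rw [Real.norm_eq_abs, abs_le]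
  constructor <;> linarith [hx.1, hx.2, hy.1, hy.2]

theorem far_bound {h h' : ℝ → ℝ} {c1 K a b : ℝ} (hc1 : 0 < c1) (ha : 0 < a) (hab : a ≤ b)
    (hd : ∀ y, 0 < y → HasDerivAt h (h' y) y) (hK : ∀ y, 0 < y → y ^ (c1 + 1) * |h' y| ≤ K) :
    |h b - h a| ≤ K * a ^ (-c1) / c1 := by
  have hK0 : 0 ≤ K := le_trans (by positivity) (hK a ha)
  have hB : ∀ t, 0 < t → HasDerivAt (fun t : ℝ => K * (a ^ (-c1) - t ^ (-c1)) / c1)
      (K * t ^ (-c1 - 1)) t := by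
    intro t ht
    have h1 := (((Real.hasDerivAt_rpow_const (p := -c1) (Or.inl ht.ne')).const_sub
      (a ^ (-c1))).const_mul K).div_const c1
    have e : K * -(-c1 * t ^ (-c1 - 1)) / c1 = K * t ^ (-c1 - 1) := by field_simp
    rw [e] at h1
    exact h1
  have h2 := image_norm_le_of_norm_deriv_right_le_deriv_boundary'
    (f := fun t => h t - h a) (f' := h') (a := a) (b := b)
    (fun t ht => ((hd t (ha.trans_le ht.1)).sub_const _).continuousAt.continuousWithinAt)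
    (fun t ht => ((hd t (ha.trans_le ht.1)).sub_const _).hasDerivWithinAt)
    (B := fun t : ℝ => K * (a ^ (-c1) - t ^ (-c1)) / c1) (B' := fun t => K * t ^ (-c1 - 1))
    (by simp)
    (fun t ht => (hB t (ha.trans_le ht.1)).continuousAt.continuousWithinAt)
    (fun t ht => (hB t (ha.trans_le ht.1)).hasDerivWithinAt)
    (fun t ht => by
      have ht0 := ha.trans_le ht.1
      have e : -c1 - 1 = -(c1 + 1) := by ring
      rw [Real.norm_eq_abs, e, Real.rpow_neg ht0.le, ← div_eq_mul_inv,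
        le_div_iff₀ (by positivity), mul_comm]
      exact hK t ht0)
    (x := b) ⟨hab, le_rfl⟩
  refine h2.trans ?_
  have : 0 ≤ b ^ (-c1) := Real.rpow_nonneg (ha.le.trans hab) _
  gcongr
  linarith

theorem cell_bound {h h' : ℝ → ℝ} {c c1 K α ε M s : ℝ} (hc1 : 0 < c1) (hc : c1 < c - 1)
    (hα : 0 < α) (hα' : α * (c - c1) ≤ 1) (hε : 0 < ε) (hε1 : ε ≤ 1)
    (hd : ∀ y, 0 < y → HasDerivAt h (h' y) y) (hK : ∀ y, 0 < y → y ^ (c1 + 1) * |h' y| ≤ K)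
    (j : ℕ)
    (hs : ∃ y₁ ∈ Icc (ε * ((j : ℝ) + 1) ^ α) (ε * ((j : ℝ) + 2) ^ α),
        ∃ y₂ ∈ Icc (ε * ((j : ℝ) + 1) ^ α) (ε * ((j : ℝ) + 2) ^ α), h y₁ ≤ s ∧ s ≤ h y₂)
    (hM : |(ε * ((j : ℝ) + 1) ^ α) ^ c * s| ≤ M) {y : ℝ}
    (hy : y ∈ Icc (ε * ((j : ℝ) + 1) ^ α) (ε * ((j : ℝ) + 2) ^ α)) :
    (y ^ c + y ^ (c - 1)) * |h y| ≤ 2 ^ c * (1 + 1 / ε) * M + 2 ^ (c + 1) * ε ^ (c - c1 - 1) * K := by
  have hα1 : α ≤ 1 := by nlinarith
  have hj : (1 : ℝ) ≤ j + 1 := by linarith [(Nat.cast_nonneg j : (0 : ℝ) ≤ j)]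
  have hj0 : (0 : ℝ) < j + 1 := by positivity
  set Y := ε * ((j : ℝ) + 1) ^ α with hY
  set Y' := ε * ((j : ℝ) + 2) ^ α with hY'
  have hY0 : 0 < Y := by positivity
  have hK0 : 0 ≤ K := le_trans (by positivity) (hK Y hY0)
  have hεY : ε ≤ Y := le_mul_of_one_le_right hε.le (Real.one_le_rpow hj hα.le)
  have hstep : Y' - Y ≤ Y / (j + 1) := by
    have := mul_le_mul_of_nonneg_left (step_le hα hα1 j) hε.le
    rw [← hY', ← mul_assoc, ← hY, mul_add, mul_one, mul_one_div] at this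
    linarith
  have h2Y : y ≤ 2 * Y := by
    have : Y / (j + 1) ≤ Y := div_le_self hY0.le hj
    linarith [hy.2]
  have hy0 : 0 < y := hY0.trans_le hy.1
  have hρ : y ^ c + y ^ (c - 1) ≤ 2 ^ c * (Y ^ c + Y ^ (c - 1)) := by
    have a1 : y ^ c ≤ 2 ^ c * Y ^ c := by
      rw [← Real.mul_rpow (by norm_num) hY0.le]
      exact Real.rpow_le_rpow hy0.le h2Y (by linarith)
    have a2 : y ^ (c - 1) ≤ 2 ^ (c - 1) * Y ^ (c - 1) := by
      rw [← Real.mul_rpow (by norm_num) hY0.le]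
      exact Real.rpow_le_rpow hy0.le h2Y (by linarith)
    have a3 : (2 : ℝ) ^ (c - 1) ≤ 2 ^ c :=
      Real.rpow_le_rpow_of_exponent_le (by norm_num) (by linarith)
    have a4 : 0 ≤ Y ^ (c - 1) := by positivity
    nlinarith
  obtain ⟨y₁, hy₁, y₂, hy₂, hs1, hs2⟩ := hs
  have b1 := near_bound hc1 hY0 hd hK hy₁ hy
  have b2 := near_bound hc1 hY0 hd hK hy₂ hy
  have b3 : |h y - s| ≤ K / Y ^ (c1 + 1) * (Y / (j + 1)) := by
    have : K / Y ^ (c1 + 1) * (Y' - Y) ≤ K / Y ^ (c1 + 1) * (Y / (j + 1)) := by gcongr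
    rw [abs_le] at b1 b2 ⊢
    constructor <;> linarith [b1.1, b1.2, b2.1, b2.2]
  have b4 : |h y| ≤ |s| + K / Y ^ (c1 + 1) * (Y / (j + 1)) := by
    have := abs_sub_abs_le_abs_sub (h y) s
    linarith
  have c1' : (Y ^ c + Y ^ (c - 1)) * |s| ≤ (1 + 1 / ε) * M := by
    rw [abs_mul, abs_of_pos (Real.rpow_pos_of_pos hY0 c)] at hM
    have e : Y ^ (c - 1) = Y ^ c / Y := Real.rpow_sub_one hY0.ne' c
    have : Y ^ c / Y ≤ Y ^ c / ε := by gcongr
    calc (Y ^ c + Y ^ (c - 1)) * |s| ≤ (Y ^ c + Y ^ c / ε) * |s| := by rw [e]; gcongr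
      _ = (1 + 1 / ε) * (Y ^ c * |s|) := by ring
      _ ≤ (1 + 1 / ε) * M := by gcongr
  set d := c - c1 - 1 with hdd
  have hd0 : 0 < d := by linarith
  have c2 : Y ^ (d + 1) ≤ ε ^ d * (j + 1) := by
    rw [hY, Real.mul_rpow hε.le (by positivity), ← Real.rpow_mul hj0.le]
    apply mul_le_mul
    · exact Real.rpow_le_rpow_of_exponent_ge hε hε1 (by linarith)
    · calc _ ≤ ((j : ℝ) + 1) ^ (1 : ℝ) :=
            Real.rpow_le_rpow_of_exponent_le hj (by rw [hdd]; nlinarith)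
        _ = _ := Real.rpow_one _
    · positivity
    · positivity
  have c3 : Y ^ d ≤ ε ^ d * (j + 1) := by
    rw [hY, Real.mul_rpow hε.le (by positivity), ← Real.rpow_mul hj0.le]
    gcongr
    calc _ ≤ ((j : ℝ) + 1) ^ (1 : ℝ) :=
          Real.rpow_le_rpow_of_exponent_le hj (by rw [hdd]; nlinarith)
      _ = _ := Real.rpow_one _
  have c4 : (Y ^ c + Y ^ (c - 1)) * (K / Y ^ (c1 + 1) * (Y / (j + 1))) =
      K * ((Y ^ (d + 1) + Y ^ d) / (j + 1)) := by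
    have e1 : Y ^ c = Y ^ d * Y ^ (c1 + 1) := by
      rw [← Real.rpow_add hY0]; congr 1; rw [hdd]; ring
    have e2 : Y ^ (c - 1) = Y ^ c / Y := Real.rpow_sub_one hY0.ne' c
    have e3 : Y ^ (d + 1) = Y ^ d * Y := Real.rpow_add_one hY0.ne' d
    have e4 : 0 < Y ^ (c1 + 1) := by positivity
    rw [e2, e1, e3]
    field_simp
  have c5 : (Y ^ (d + 1) + Y ^ d) / (j + 1) ≤ 2 * ε ^ d := by
    rw [div_le_iff₀ hj0]; linarith
  have e5 : (2 : ℝ) ^ (c + 1) = 2 ^ c * 2 := Real.rpow_add_one (by norm_num) c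
  calc (y ^ c + y ^ (c - 1)) * |h y|
      ≤ 2 ^ c * (Y ^ c + Y ^ (c - 1)) * (|s| + K / Y ^ (c1 + 1) * (Y / (j + 1))) := by gcongr
    _ = 2 ^ c * ((Y ^ c + Y ^ (c - 1)) * |s| +
          (Y ^ c + Y ^ (c - 1)) * (K / Y ^ (c1 + 1) * (Y / (j + 1)))) := by ring
    _ ≤ 2 ^ c * ((1 + 1 / ε) * M + K * (2 * ε ^ d)) := by rw [c4]; gcongr
    _ = _ := by rw [e5]; ring

end Pool.Agent.H936Z.Samp

namespace Pool.Agent.H520Z.Sel

open Pool.Agent.H936Z.Samp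

theorem sampling_rep_fun (V : Submodule ℝ (ℝ → ℝ)) (c c1 C0 α : ℝ) (hc1 : 0 < c1)
    (hc : c1 < c - 1)
    (hC0 : 0 ≤ C0) (hα : 0 < α) (hα' : α * (c - c1) ≤ 1) (hP : Poin V c c1 C0)
    (hD : ∀ h ∈ V, ∃ K : ℝ, ∀ y, 0 < y → (y ^ (c + 1) + y ^ (c - 1)) * |h y| ≤ K) :
    ∃ ε C : ℝ, 0 < ε ∧ 0 ≤ C ∧ ∀ S : ℕ → V →ₗ[ℝ] ℝ,
      (∀ (j : ℕ) (h : V), ∃ y₁ ∈ Icc (ε * ((j : ℝ) + 1) ^ α) (ε * ((j : ℝ) + 2) ^ α),
        ∃ y₂ ∈ Icc (ε * ((j : ℝ) + 1) ^ α) (ε * ((j : ℝ) + 2) ^ α),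
          (h : ℝ → ℝ) y₁ ≤ S j h ∧ S j h ≤ (h : ℝ → ℝ) y₂) →
      ∀ (φ : V →ₗ[ℝ] ℝ) (M : ℝ), 0 ≤ M →
        (∀ (h : V) (N : ℝ), (∀ y, 0 < y → (y ^ c + y ^ (c - 1)) * |(h : ℝ → ℝ) y| ≤ N) →
          |φ h| ≤ M * N) →
        ∃ r : ℕ → ℝ,
        Summable (fun j : ℕ => |r j| * (ε * ((j : ℝ) + 1) ^ α) ^ (-c)) ∧
        ∑' j : ℕ, |r j| * (ε * ((j : ℝ) + 1) ^ α) ^ (-c) ≤ C * M ∧
        ∀ h : V, HasSum (fun j => r j * S j h) (φ h) := by
  set d := c - c1 - 1 with hdd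
  have hd0 : 0 < d := by linarith
  set A := (2 ^ (c + 1) + 2 / c1) * C0 with hA
  have hA0 : 0 ≤ A := by positivity
  obtain ⟨ε, hε, hε1, hεA⟩ : ∃ ε : ℝ, 0 < ε ∧ ε ≤ 1 ∧ ε ^ d * A ≤ 1 / 2 := by
    have hx : (0 : ℝ) < 1 / (2 * (A + 1)) := by positivity
    refine ⟨(1 / (2 * (A + 1))) ^ d⁻¹, by positivity, ?_, ?_⟩
    · apply Real.rpow_le_one hx.le _ (by positivity)
      rw [div_le_one (by positivity)]; linarith
    · rw [Real.rpow_inv_rpow hx.le hd0.ne', div_mul_eq_mul_div, div_le_iff₀ (by positivity)]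
      linarith
  set C1 := 2 ^ c * (1 + 1 / ε) with hC1
  have hC10 : 0 ≤ C1 := by positivity
  refine ⟨ε, 2 * C1, hε, by positivity, fun S hS φ M0 hM0 hφ => ?_⟩
  have hY : ∀ j : ℕ, 0 < ε * ((j : ℝ) + 1) ^ α := fun j => by positivity
  let T : ℕ → V →ₗ[ℝ] ℝ := fun j => (ε * ((j : ℝ) + 1) ^ α) ^ c • S j
  have hT : ∀ j h, T j h = (ε * ((j : ℝ) + 1) ^ α) ^ c * S j h := fun j h => rfl
  have hT0 : ∀ h, Tendsto (fun j => T j h) atTop (𝓝 0) := by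
    intro h
    obtain ⟨K, hK⟩ := hD h h.2
    have ht : Tendsto (fun j : ℕ => ε * ((j : ℝ) + 1) ^ α) atTop atTop :=
      ((tendsto_rpow_atTop hα).comp
        (tendsto_atTop_add_const_right _ 1 tendsto_natCast_atTop_atTop)).const_mul_atTop hε
    refine squeeze_zero_norm (fun j => ?_) (ht.const_div_atTop K)
    set Y := ε * ((j : ℝ) + 1) ^ α with hYd
    have hY0 : 0 < Y := hY j
    have key : ∀ z, Y ≤ z → Y ^ c * |(h : ℝ → ℝ) z| ≤ K / Y := by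
      intro z hz
      have hz0 := hY0.trans_le hz
      rw [le_div_iff₀ hY0]
      refine le_trans ?_ (hK z hz0)
      have e : Y ^ c * |(h : ℝ → ℝ) z| * Y = Y ^ (c + 1) * |(h : ℝ → ℝ) z| := by
        rw [Real.rpow_add_one hY0.ne']; ring
      rw [e]
      gcongr
      have a1 : Y ^ (c + 1) ≤ z ^ (c + 1) := Real.rpow_le_rpow hY0.le hz (by linarith)
      have a2 : 0 ≤ z ^ (c - 1) := by positivity
      linarith
    obtain ⟨y₁, hy₁, y₂, hy₂, h1, h2⟩ := hS j h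
    have k1 := key y₁ hy₁.1
    have k2 := key y₂ hy₂.1
    have hYc : 0 < Y ^ c := by positivity
    rw [hT, Real.norm_eq_abs, abs_le]
    constructor
    · nlinarith [neg_abs_le ((h : ℝ → ℝ) y₁)]
    · nlinarith [le_abs_self ((h : ℝ → ℝ) y₂)]
  have hmain : ∀ (h : V) (M : ℝ), (∀ j, |T j h| ≤ M) →
      ∀ z, 0 < z → (z ^ c + z ^ (c - 1)) * |(h : ℝ → ℝ) z| ≤ 2 * C1 * M := by
    intro h M hM
    obtain ⟨K, hK⟩ := hD h h.2
    obtain ⟨h', hd, -, hP'⟩ := hP h h.2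
    let Z : Set ℝ := {x | ∃ z, 0 < z ∧ x = (z ^ c + z ^ (c - 1)) * |(h : ℝ → ℝ) z|}
    have hZb : BddAbove Z := by
      refine ⟨2 * K, ?_⟩
      rintro _ ⟨z, hz, rfl⟩
      have e1 : z ^ c = z ^ (c - 1) * z := by
        rw [← Real.rpow_add_one hz.ne']; congr 1; ring
      have e2 : z ^ (c + 1) = z ^ (c - 1) * z * z := by
        rw [Real.rpow_add_one hz.ne', e1]
      have a1 : 0 < z ^ (c - 1) := by positivity
      have a2 : z ^ c + z ^ (c - 1) ≤ 2 * (z ^ (c + 1) + z ^ (c - 1)) := by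
        rw [e2, e1]
        nlinarith [mul_nonneg a1.le (sq_nonneg (z - 1)), mul_pos a1 (mul_pos hz hz)]
      calc _ ≤ 2 * (z ^ (c + 1) + z ^ (c - 1)) * |(h : ℝ → ℝ) z| := by gcongr
        _ = 2 * ((z ^ (c + 1) + z ^ (c - 1)) * |(h : ℝ → ℝ) z|) := by ring
        _ ≤ 2 * K := by gcongr; exact hK z hz
    set N := sSup Z with hN
    have hNle : ∀ z, 0 < z → (z ^ c + z ^ (c - 1)) * |(h : ℝ → ℝ) z| ≤ N :=
      fun z hz => le_csSup hZb ⟨z, hz, rfl⟩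
    have hN0 : 0 ≤ N := le_trans (by positivity) (hNle 1 one_pos)
    have hK' := hP' N hNle
    have hbig : ∀ z, ε ≤ z → (z ^ c + z ^ (c - 1)) * |(h : ℝ → ℝ) z| ≤
        C1 * M + 2 ^ (c + 1) * ε ^ d * (C0 * N) := by
      intro z hz
      obtain ⟨j, hj⟩ := exists_cell hε hα hz
      exact cell_bound hc1 hc hα hα' hε hε1 hd hK' j (hS j h) (hM j) hj
    have hall : ∀ z, 0 < z → (z ^ c + z ^ (c - 1)) * |(h : ℝ → ℝ) z| ≤
        C1 * M + ε ^ d * A * N := by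
      intro z hz
      have e : ε ^ d * A * N = 2 ^ (c + 1) * ε ^ d * (C0 * N) + 2 * ε ^ d * (C0 * N) / c1 := by
        rw [hA]; ring
      have a0 : 0 ≤ 2 * ε ^ d * (C0 * N) / c1 := by positivity
      rcases le_total ε z with hzε | hzε
      · have := hbig z hzε
        linarith
      · have b1 := hbig ε le_rfl
        have b2 := far_bound hc1 hz hzε hd hK'
        have b3 : |(h : ℝ → ℝ) z| ≤ |(h : ℝ → ℝ) ε| + C0 * N * z ^ (-c1) / c1 := by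
          have := abs_sub_abs_le_abs_sub ((h : ℝ → ℝ) z) ((h : ℝ → ℝ) ε)
          rw [abs_sub_comm] at b2
          linarith
        have b4 : z ^ c + z ^ (c - 1) ≤ ε ^ c + ε ^ (c - 1) :=
          add_le_add (Real.rpow_le_rpow hz.le hzε (by linarith))
            (Real.rpow_le_rpow hz.le hzε (by linarith))
        have b5 : (z ^ c + z ^ (c - 1)) * z ^ (-c1) ≤ 2 * ε ^ d := by
          have e1 : z ^ (c - 1) * z ^ (-c1) = z ^ d := by
            rw [← Real.rpow_add hz]; congr 1; rw [hdd]; ring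
          have a1 : z ^ c ≤ z ^ (c - 1) :=
            Real.rpow_le_rpow_of_exponent_ge hz (hzε.trans hε1) (by linarith)
          have a2 : z ^ d ≤ ε ^ d := Real.rpow_le_rpow hz.le hzε hd0.le
          calc _ ≤ (z ^ (c - 1) + z ^ (c - 1)) * z ^ (-c1) := by gcongr
            _ = 2 * z ^ d := by rw [add_mul, e1]; ring
            _ ≤ _ := by gcongr
        calc (z ^ c + z ^ (c - 1)) * |(h : ℝ → ℝ) z|
            ≤ (z ^ c + z ^ (c - 1)) * (|(h : ℝ → ℝ) ε| + C0 * N * z ^ (-c1) / c1) := by gcongr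
          _ = (z ^ c + z ^ (c - 1)) * |(h : ℝ → ℝ) ε| +
              ((z ^ c + z ^ (c - 1)) * z ^ (-c1)) * (C0 * N) / c1 := by ring
          _ ≤ (ε ^ c + ε ^ (c - 1)) * |(h : ℝ → ℝ) ε| + (2 * ε ^ d) * (C0 * N) / c1 := by gcongr
          _ ≤ _ := by linarith
    have hNup : N ≤ C1 * M + ε ^ d * A * N := by
      have hZne : Z.Nonempty := ⟨_, 1, one_pos, rfl⟩
      apply csSup_le hZne
      rintro _ ⟨z, hz, rfl⟩
      exact hall z hz
    have : ε ^ d * A * N ≤ 1 / 2 * N := by gcongr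
    intro z hz
    have := hNle z hz
    linarith
  obtain ⟨r, hr1, hr2, hr3⟩ := dual_rep T hT0 φ (2 * C1 * M0) (by positivity) (fun h M hM => by
      have := hφ h _ (hmain h M hM)
      linarith)
  have e : ∀ j : ℕ, |r j * (ε * ((j : ℝ) + 1) ^ α) ^ c| * (ε * ((j : ℝ) + 1) ^ α) ^ (-c) =
      |r j| := by
    intro j
    rw [abs_mul, abs_of_pos (Real.rpow_pos_of_pos (hY j) c), mul_assoc,
      ← Real.rpow_add (hY j), add_neg_cancel, Real.rpow_zero, mul_one]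
  refine ⟨fun j => r j * (ε * ((j : ℝ) + 1) ^ α) ^ c, ?_, ?_, fun h => ?_⟩
  · simpa only [e] using hr1
  · simpa only [e] using hr2
  · have := hr3 h
    simp only [hT, ← mul_assoc] at this
    exact this

theorem sampling_rep (V : Submodule ℝ (ℝ → ℝ)) (c c1 C0 α : ℝ) (hc1 : 0 < c1) (hc : c1 < c - 1)
    (hC0 : 0 ≤ C0) (hα : 0 < α) (hα' : α * (c - c1) ≤ 1) (hP : Poin V c c1 C0)
    (hD : ∀ h ∈ V, ∃ K : ℝ, ∀ y, 0 < y → (y ^ (c + 1) + y ^ (c - 1)) * |h y| ≤ K) :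
    ∃ ε C : ℝ, 0 < ε ∧ 0 ≤ C ∧ ∀ S : ℕ → V →ₗ[ℝ] ℝ,
      (∀ (j : ℕ) (h : V), ∃ y₁ ∈ Icc (ε * ((j : ℝ) + 1) ^ α) (ε * ((j : ℝ) + 2) ^ α),
        ∃ y₂ ∈ Icc (ε * ((j : ℝ) + 1) ^ α) (ε * ((j : ℝ) + 2) ^ α),
          (h : ℝ → ℝ) y₁ ≤ S j h ∧ S j h ≤ (h : ℝ → ℝ) y₂) →
      ∀ y : ℝ, 0 < y → ∃ r : ℕ → ℝ,
        Summable (fun j : ℕ => |r j| * (ε * ((j : ℝ) + 1) ^ α) ^ (-c)) ∧
        ∑' j : ℕ, |r j| * (ε * ((j : ℝ) + 1) ^ α) ^ (-c) ≤ C / (y ^ c + y ^ (c - 1)) ∧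
        ∀ h : V, HasSum (fun j => r j * S j h) ((h : ℝ → ℝ) y) := by
  obtain ⟨ε, C, hε, hC, H⟩ := sampling_rep_fun V c c1 C0 α hc1 hc hC0 hα hα' hP hD
  refine ⟨ε, C, hε, hC, fun S hS y hy => ?_⟩
  have hρ : 0 < y ^ c + y ^ (c - 1) := by positivity
  obtain ⟨r, hr1, hr2, hr3⟩ := H S hS ((LinearMap.proj y).comp V.subtype)
    (1 / (y ^ c + y ^ (c - 1))) (by positivity) (fun h N hN => by
      rw [div_mul_eq_mul_div, one_mul, le_div_iff₀ hρ, mul_comm]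
      exact hN y hy)
  exact ⟨r, hr1, by rwa [mul_one_div] at hr2, hr3⟩

end Pool.Agent.H520Z.Sel
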