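import Mathlib

/-!
Backward orbits of a polynomial of degree at least two inside a number field are finite.
-/

set_option autoImplicit false

namespace Pool.Agent.H936Z.Usb

open Polynomial Filter

theorem integral_of_pow {K : Type*} [Field K] (z : K) (d : ℕ) (hd : 0 < d) (b : ℕ → K)
    (hb : ∀ i ∈ Finset.range d, IsIntegral ℤ (b i))
    (h : z ^ d = ∑ i ∈ Finset.range d, b i * z ^ i) : IsIntegral ℤ z := by
  classical
  set O := integralClosure ℤ K
  let b' : ℕ → O := fun i => if hi : i ∈ Finset.range d then ⟨b i, hb i hi⟩ else 0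
  have hz : IsIntegral O z := by
    refine ⟨X ^ d - ∑ i ∈ Finset.range d, C (b' i) * X ^ i, ?_, ?_⟩
    · apply Polynomial.monic_X_pow_sub
      refine (degree_sum_le _ _).trans_lt ?_
      rw [Finset.sup_lt_iff (WithBot.bot_lt_coe _)]
      intro i hi
      refine (degree_C_mul_X_pow_le _ _).trans_lt ?_
      exact_mod_cast Finset.mem_range.mp hi
    · rw [eval₂_sub, eval₂_X_pow, eval₂_finsetSum, h, sub_eq_zero]
      apply Finset.sum_congr rfl
      intro i hi
      rw [eval₂_mul, eval₂_C, eval₂_X_pow]
      simp only [b', dif_pos hi]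
      rfl
  exact isIntegral_trans z hz

theorem exists_denom {K : Type*} [Field K] [CharZero K] [Algebra.IsAlgebraic ℚ K]
    (s : Finset K) : ∃ c : ℕ, 0 < c ∧ ∀ x ∈ s, IsIntegral ℤ ((c : K) * x) := by
  classical
  induction s using Finset.induction_on with
  | empty => exact ⟨1, one_pos, by simp⟩
  | insert a s _ ih =>
    obtain ⟨c, hc, H⟩ := ih
    have ha : IsAlgebraic ℤ a :=
      (IsFractionRing.isAlgebraic_iff ℤ ℚ K).mpr (Algebra.IsAlgebraic.isAlgebraic a)
    obtain ⟨y, hy, hya⟩ := ha.exists_integral_multiple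
    have hya' : IsIntegral ℤ ((y.natAbs : K) * a) := by
      rw [zsmul_eq_mul] at hya
      rcases Int.natAbs_eq y with h | h
      · have : (y : K) = (y.natAbs : K) := by
          conv_lhs => rw [h]
          simp
        rwa [this] at hya
      · have : (y : K) = -(y.natAbs : K) := by
          conv_lhs => rw [h]
          simp
        rw [this, neg_mul] at hya
        simpa using hya.neg
    refine ⟨c * y.natAbs, Nat.mul_pos hc (Int.natAbs_pos.mpr hy), ?_⟩
    intro x hx
    rcases Finset.mem_insert.mp hx with rfl | hx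
    · rw [Nat.cast_mul, mul_assoc]
      exact (isIntegral_natCast c).mul hya'
    · rw [Nat.cast_mul, mul_comm (c : K), mul_assoc]
      exact (isIntegral_natCast _).mul (H x hx)

theorem complex_escape (g : ℂ[X]) (hd : 2 ≤ g.natDegree) :
    ∃ R : ℝ, ∀ z : ℂ, R < ‖z‖ → ‖z‖ < ‖g.eval z‖ := by
  have h1 : 0 < g.divX.degree := by
    rw [← natDegree_pos_iff_degree_pos, natDegree_divX_eq_natDegree_tsub_one]
    omega
  have h2 : Tendsto (fun z : ℂ => ‖g.divX.eval z‖) (comap norm atTop) atTop :=
    g.divX.tendsto_norm_atTop h1 tendsto_comap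
  have h3 := h2.eventually (eventually_ge_atTop (2 + ‖g.coeff 0‖))
  rw [eventually_comap, eventually_atTop] at h3
  obtain ⟨R, hR⟩ := h3
  refine ⟨max R 1, fun z hz => ?_⟩
  have hz1 : 1 < ‖z‖ := (le_max_right _ _).trans_lt hz
  have hzR : R ≤ ‖z‖ := ((le_max_left _ _).trans_lt hz).le
  have h4 := hR _ hzR z rfl
  have e : g.divX.eval z * z = g.eval z - g.coeff 0 := by
    conv_rhs => rw [← divX_mul_X_add g]
    simp
  have h5 : ‖g.divX.eval z‖ * ‖z‖ ≤ ‖g.eval z‖ + ‖g.coeff 0‖ := by
    rw [← norm_mul, e]; exact norm_sub_le _ _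
  nlinarith [norm_nonneg (g.coeff 0)]

theorem back_finite {K : Type*} [Field K] [NumberField K] (f : K[X]) (hd : 2 ≤ f.natDegree)
    (x : ℕ → K) (hx : ∀ k, f.eval (x (k + 1)) = x k) : (Set.range x).Finite := by
  classical
  set d := f.natDegree with hdd
  have hf0 : f ≠ 0 := by
    rintro rfl
    simp at hdd; omega
  have hl : f.leadingCoeff ≠ 0 := leadingCoeff_ne_zero.mpr hf0
  obtain ⟨c, hc, H⟩ := exists_denom (insert (x 0) (insert (f.leadingCoeff⁻¹)
    ((Finset.range d).image fun i => f.coeff i / f.leadingCoeff)))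
  have hcK : (c : K) ≠ 0 := by exact_mod_cast hc.ne'
  have hint : ∀ k, IsIntegral ℤ ((c : K) * x k) := by
    intro k
    induction k with
    | zero => exact H _ (Finset.mem_insert_self _ _)
    | succ k ih =>
      obtain ⟨e, he⟩ : ∃ e, d = e + 2 := ⟨d - 2, by omega⟩
      let b : ℕ → K := fun i => -((c : K) ^ (d - 1 - i) * (c * (f.coeff i / f.leadingCoeff))) +
        if i = 0 then (c : K) ^ e * (c * f.leadingCoeff⁻¹) * (c * x k) else 0
      apply integral_of_pow _ d (by omega) b
      · intro i hi
        apply IsIntegral.add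
        · apply IsIntegral.neg
          apply ((isIntegral_natCast c).pow _).mul
          apply H
          exact Finset.mem_insert_of_mem (Finset.mem_insert_of_mem
            (Finset.mem_image.mpr ⟨i, hi, rfl⟩))
        · split_ifs
          · refine (((isIntegral_natCast c).pow _).mul ?_).mul ih
            exact H _ (Finset.mem_insert_of_mem (Finset.mem_insert_self _ _))
          · exact isIntegral_zero
      · have e1 := hx k
        rw [eval_eq_sum_range, Finset.sum_range_succ, ← hdd] at e1
        have e2 : ∀ i ∈ Finset.range d, b i * ((c : K) * x (k + 1)) ^ i =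
            -((c : K) ^ d * f.leadingCoeff⁻¹) * (f.coeff i * x (k + 1) ^ i) +
              if i = 0 then (c : K) ^ d * f.leadingCoeff⁻¹ * x k else 0 := by
          intro i hi
          have hi' := Finset.mem_range.mp hi
          have e3 : (c : K) ^ d = (c : K) ^ (d - 1 - i) * c * c ^ i := by
            rw [← pow_succ, ← pow_add]; congr 1; omega
          simp only [b]
          split_ifs with h0
          · subst h0
            have e4 : (c : K) ^ d = (c : K) ^ e * c * c := by rw [he]; ring
            rw [add_mul, pow_zero, pow_zero, mul_one, mul_one, mul_one]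
            congr 1
            · rw [e3]; field_simp
            · rw [e4]; ring
          · rw [add_zero, add_zero, e3, mul_pow]; field_simp
        rw [Finset.sum_congr rfl e2, Finset.sum_add_distrib, ← Finset.mul_sum,
          Finset.sum_ite_eq' (Finset.range d) 0, if_pos (Finset.mem_range.mpr (by omega))]
        have e5 : f.coeff d = f.leadingCoeff := rfl
        rw [e5] at e1
        rw [← e1, mul_pow]
        field_simp
        ring
  have hbd : ∀ φ : K →+* ℂ, ∃ B : ℝ, ∀ k, ‖φ ((c : K) * x k)‖ ≤ B := by
    intro φ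
    obtain ⟨R, hR⟩ := complex_escape (f.map φ) (by rwa [natDegree_map])
    refine ⟨‖φ c‖ * max R ‖φ (x 0)‖, fun k => ?_⟩
    rw [map_mul, norm_mul]
    gcongr
    induction k with
    | zero => exact le_max_right _ _
    | succ k ih =>
      by_contra h
      push Not at h
      have h1 := hR _ ((le_max_left _ _).trans_lt h)
      rw [Polynomial.eval_map, Polynomial.eval₂_hom, hx k] at h1
      linarith
  choose B hB using hbd
  obtain ⟨B0, hB0⟩ := (Set.finite_range B).bddAbove
  have hfin := NumberField.Embeddings.finite_of_norm_le K ℂ B0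
  have hsub : Set.range x ⊆ (fun y => (c : K) * y) ⁻¹'
      {y : K | IsIntegral ℤ y ∧ ∀ φ : K →+* ℂ, ‖φ y‖ ≤ B0} := by
    rintro _ ⟨k, rfl⟩
    exact ⟨hint k, fun φ => (hB φ k).trans (hB0 ⟨φ, rfl⟩)⟩
  exact (hfin.preimage (mul_right_injective₀ hcK).injOn).subset hsub

end Pool.Agent.H936Z.Usb
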