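import Mathlib

/-!
Definitions for properties (USB) and (P) of subfields of the algebraic closure of the rationals.
-/

set_option autoImplicit false

namespace Pool.Agent.H936Z.Usb

open Polynomial

/-- The fixed algebraic closure of the rationals. -/
abbrev Qbar : Type := AlgebraicClosure ℚ

/-- The projective line over `Qbar`: `some x` is the affine point `x`, `none` is infinity. -/
abbrev P1 : Type := Option Qbar

/-- The absolute logarithmic Weil height on the projective line (infinity has height `0`). -/
noncomputable def ht : P1 → ℝ
  | none => 0
  | some x => NumberField.absLogHeight₁ x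

/-- The degree of a rational function: the larger of the degrees of its (coprime) numerator and
denominator. -/
noncomputable def deg (f : RatFunc Qbar) : ℕ := max f.num.natDegree f.denom.natDegree

open Classical in
/-- The self-map of the projective line given by a rational function `f = num / denom`
(in lowest terms). -/
noncomputable def act (f : RatFunc Qbar) : P1 → P1
  | none =>
      if f.denom.natDegree < f.num.natDegree then none
      else some (f.num.coeff f.denom.natDegree / f.denom.leadingCoeff)
  | some x => if f.denom.eval x = 0 then none else some (f.num.eval x / f.denom.eval x)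

/-- `H` is the canonical height of `f`: `H (f a) = deg f * H a` and `H = h + O(1)`. -/
def IsCanonicalHeight (f : RatFunc Qbar) (H : P1 → ℝ) : Prop :=
  (∀ a, H (act f a) = deg f * H a) ∧ ∃ C : ℝ, ∀ a, |H a - ht a| ≤ C

/-- The preperiodic points of `f`: those with finite forward orbit. -/
def PrePer (f : RatFunc Qbar) : Set P1 := {a | (Set.range fun n : ℕ => (act f)^[n] a).Finite}

/-- The points of the projective line over `F`: infinity and the elements of `F`. -/
def pts (F : IntermediateField ℚ Qbar) : Set P1 := {none} ∪ some '' (F : Set Qbar)

/-- The strong Bogomolov property of `F` relative to the canonical height `H` of `f`. -/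
def SB (F : IntermediateField ℚ Qbar) (f : RatFunc Qbar) (H : P1 → ℝ) : Prop :=
  (∃ c : ℝ, 0 < c ∧ ∀ a ∈ pts F, a ∉ PrePer f → c ≤ H a) ∧ (pts F ∩ PrePer f).Finite

/-- Property (USB): (SB) relative to the canonical height of every `f` of degree at least two. -/
def USB (F : IntermediateField ℚ Qbar) : Prop :=
  ∀ f : RatFunc Qbar, 2 ≤ deg f → ∀ H : P1 → ℝ, IsCanonicalHeight f H → SB F f H

/-- Property (P): a nonconstant polynomial over `F` mapping some infinite subset of `F` onto
itself has degree one. -/
def PropP (F : IntermediateField ℚ Qbar) : Prop :=
  ∀ f : F[X], 0 < f.natDegree →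
    (∃ S : Set F, S.Infinite ∧ (fun x => f.eval x) '' S = S) → f.natDegree = 1

end Pool.Agent.H936Z.Usb
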