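import Mathlib

/-!
Periodic points of polynomials with good reduction over the `q`-adic numbers have uniformly
bounded period.
-/

set_option autoImplicit false

namespace Pool.Agent.H936Z.Usb

open Polynomial

theorem core {R : Type*} [CommRing R] [IsDomain R] (I : Ideal R) (P : R[X]) (w : ℕ → R)
    (hw : ∀ a, w (a + 1) = P.eval (w a)) (hI : ∀ a, w a - w 0 ∈ I) (r : ℕ)
    (hr : ∀ x : R ⧸ I, IsUnit x → x ^ r = 1) (hp : ∀ l : ℕ, l.Prime → (l : R) ∉ I)
    (n : ℕ) (hn : 0 < n) (hper : w n = w 0) : w r = w 0 := by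
  classical
  set lam : R ⧸ I := Ideal.Quotient.mk I (P.derivative.eval (w 0)) with hlam
  -- periodicity
  have hshift : ∀ s, w s = w 0 → ∀ a, w (a + s) = w a := by
    intro s hs a
    induction a with
    | zero => simpa using hs
    | succ a ih => rw [Nat.succ_add, hw, hw, ih]
  have hmul : ∀ s, w s = w 0 → ∀ k, w (k * s) = w 0 := by
    intro s hs k
    induction k with
    | zero => simp
    | succ k ih => rw [Nat.succ_mul, hshift s hs, ih]
  -- differences
  have hd : ∀ t a, ∃ U : R, w (a + t) - w a = (w t - w 0) * U ∧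
      Ideal.Quotient.mk I U = lam ^ a := by
    intro t a
    induction a with
    | zero => exact ⟨1, by simp, by simp⟩
    | succ a ih =>
      obtain ⟨U, hU, hU'⟩ := ih
      obtain ⟨k, hk⟩ := P.binomExpansion (w a) (w (a + t) - w a)
      have hdI : w (a + t) - w a ∈ I := by
        have := I.sub_mem (hI (a + t)) (hI a)
        simpa using this
      refine ⟨U * (P.derivative.eval (w a) + k * (w (a + t) - w a)), ?_, ?_⟩
      · rw [Nat.succ_add, hw, hw, ← mul_assoc, ← hU]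
        have e : w (a + t) = w a + (w (a + t) - w a) := by ring
        conv_lhs => rw [e, hk]
        ring
      · rw [map_mul, hU', pow_succ, map_add, map_mul, Ideal.Quotient.eq_zero_iff_mem.mpr hdI,
          mul_zero, add_zero, hlam]
        congr 1
        rw [Ideal.Quotient.eq]
        exact I.mem_of_dvd (Polynomial.sub_dvd_eval_sub _ _ _) (hI a)
  by_contra hne
  -- minimal positive `m` with `w (m * r) = w 0`
  have hex : ∃ m, 0 < m ∧ w (m * r) = w 0 := ⟨n, hn, by rw [mul_comm]; exact hmul n hper r⟩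
  set m := Nat.find hex with hm
  obtain ⟨hm0, hmw⟩ := Nat.find_spec hex
  rw [← hm] at hm0 hmw
  have hm1 : m ≠ 1 := by
    intro h
    rw [h, one_mul] at hmw
    exact hne hmw
  obtain ⟨l, hl, m', hm'⟩ := Nat.exists_prime_and_dvd hm1
  have hm'0 : 0 < m' := by
    rcases Nat.eq_zero_or_pos m' with h | h
    · rw [h, mul_zero] at hm'; omega
    · exact h
  have hlt : m' < m := by
    have := hl.two_le
    nlinarith
  have hs : w (m' * r) ≠ w 0 := fun h => Nat.find_min hex hlt ⟨hm'0, h⟩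
  have hs' : w (m' * r) - w 0 ≠ 0 := sub_ne_zero.mpr hs
  -- `lam` is a unit
  have hunit : IsUnit lam := by
    obtain ⟨U, hU, hU'⟩ := hd (m' * r) n
    rw [add_comm, hshift n hper, hper] at hU
    have : U = 1 := by
      apply mul_left_cancel₀ hs'
      rw [← hU, mul_one]
    rw [this, map_one] at hU'
    exact IsUnit.of_pow_eq_one hU'.symm hn.ne'
  have hone : lam ^ r = 1 := hr lam hunit
  have hsum : ∀ j, ∃ V : R, w (j * (m' * r)) - w 0 = (w (m' * r) - w 0) * V ∧
      Ideal.Quotient.mk I V = j := by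
    intro j
    induction j with
    | zero => exact ⟨0, by simp, by simp⟩
    | succ j ih =>
      obtain ⟨V, hV, hV'⟩ := ih
      obtain ⟨U, hU, hU'⟩ := hd (m' * r) (j * (m' * r))
      refine ⟨V + U, ?_, ?_⟩
      · rw [Nat.succ_mul, mul_add, ← hV, ← hU]; ring
      · rw [map_add, hV', hU']
        have : j * (m' * r) = r * (j * m') := by ring
        rw [this, pow_mul, hone, one_pow]
        push_cast; ring
  obtain ⟨V, hV, hV'⟩ := hsum l
  rw [← mul_assoc, ← hm', hmw, sub_self] at hV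
  have hV0 : V = 0 := (mul_eq_zero.mp hV.symm).resolve_left hs'
  rw [hV0, map_zero] at hV'
  apply hp l hl
  rw [← Ideal.Quotient.eq_zero_iff_mem, map_natCast]
  exact hV'.symm

theorem core2 {R : Type*} [CommRing R] [IsDomain R] (I : Ideal R) [Finite (R ⧸ I)]
    (hp : ∀ l : ℕ, l.Prime → (l : R) ∉ I) :
    ∃ L : ℕ, 0 < L ∧ ∀ (P : R[X]) (y : R) (n : ℕ), 0 < n → (fun x => P.eval x)^[n] y = y →
      (fun x => P.eval x)^[L] y = y := by
  classical
  have := Fintype.ofFinite (R ⧸ I)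
  set M := Fintype.card (R ⧸ I) with hM
  set r := Nat.card (R ⧸ I)ˣ with hr
  refine ⟨M.factorial * r, Nat.mul_pos (Nat.factorial_pos _) Nat.card_pos, ?_⟩
  intro P y n hn hy
  set g : R → R := fun x => P.eval x with hg
  set gb : R ⧸ I → R ⧸ I := fun x => (P.map (Ideal.Quotient.mk I)).eval x with hgb
  have hsemi : Function.Semiconj (Ideal.Quotient.mk I) g gb := by
    intro x
    simp [hg, hgb, Polynomial.eval_map]
  have hper : Function.IsPeriodicPt gb n (Ideal.Quotient.mk I y) :=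
    Function.IsPeriodicPt.map hy hsemi
  have hdvd : Function.minimalPeriod gb (Ideal.Quotient.mk I y) ∣ M.factorial :=
    Nat.dvd_factorial (hper.minimalPeriod_pos hn) (Function.minimalPeriod_le_card)
  have hperM : Function.IsPeriodicPt gb M.factorial (Ideal.Quotient.mk I y) :=
    Function.isPeriodicPt_iff_minimalPeriod_dvd.mpr hdvd
  set Q : R[X] := P.comp^[M.factorial] X with hQ
  have hQe : ∀ x, Q.eval x = g^[M.factorial] x := by
    intro x
    rw [hQ, Polynomial.iterate_comp_eval, eval_X]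
  have key := core I Q (fun a => g^[M.factorial * a] y) ?_ ?_ r ?_ hp n hn ?_
  · simpa using key
  · intro a
    rw [hQe, Nat.mul_succ, add_comm, Function.iterate_add_apply]
  · intro a
    simp only [mul_zero, Function.iterate_zero, id]
    rw [← Ideal.Quotient.eq, (hsemi.iterate_right _).eq]
    exact hperM.mul_const a
  · intro x hx
    obtain ⟨u, rfl⟩ := hx
    rw [← Units.val_pow_eq_pow_val, hr, pow_card_eq_one', Units.val_one]
  · simp only [mul_zero, Function.iterate_zero, id]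
    exact (show Function.IsPeriodicPt g n y from hy).const_mul _

theorem padicInt_period (q : ℕ) [Fact q.Prime] :
    ∃ L : ℕ, 0 < L ∧ ∀ (P : ℤ_[q][X]) (y : ℤ_[q]) (n : ℕ), 0 < n →
      (fun x => P.eval x)^[n] y = y → (fun x => P.eval x)^[L] y = y := by
  have hq : q.Prime := Fact.out
  set I : Ideal ℤ_[q] := RingHom.ker (PadicInt.toZModPow 2) with hI
  have : NeZero (q ^ 2) := ⟨pow_ne_zero _ hq.ne_zero⟩
  have : Finite (ℤ_[q] ⧸ I) :=
    Finite.of_injective _ (RingHom.kerLift_injective (PadicInt.toZModPow (p := q) 2))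
  apply core2 I
  intro l hl hmem
  rw [hI, RingHom.mem_ker, map_natCast, ZMod.natCast_eq_zero_iff] at hmem
  have h1 : q ∣ l := (dvd_pow_self q two_ne_zero).trans hmem
  have h2 : q = l := (Nat.prime_dvd_prime_iff_eq hq hl).mp h1
  subst h2
  have h3 := Nat.le_of_dvd hq.pos hmem
  have := hq.two_le
  nlinarith

theorem padic_grow {q : ℕ} [Fact q.Prime] (g : ℚ_[q][X]) (hd : 2 ≤ g.natDegree)
    (hc : ∀ i, ‖g.coeff i‖ ≤ 1) (hl : ‖g.leadingCoeff‖ = 1) (z : ℚ_[q]) (hz : 1 < ‖z‖) :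
    ‖z‖ < ‖g.eval z‖ := by
  set d := g.natDegree with hdd
  have e : g.eval z = (∑ i ∈ Finset.range d, g.coeff i * z ^ i) + g.leadingCoeff * z ^ d := by
    rw [eval_eq_sum_range, Finset.sum_range_succ]
    rfl
  have h1 : ‖∑ i ∈ Finset.range d, g.coeff i * z ^ i‖ ≤ ‖z‖ ^ (d - 1) := by
    apply IsUltrametricDist.norm_sum_le_of_forall_le_of_nonneg (by positivity)
    intro i hi
    rw [norm_mul, norm_pow]
    have hi' := Finset.mem_range.mp hi
    calc ‖g.coeff i‖ * ‖z‖ ^ i ≤ 1 * ‖z‖ ^ i := by gcongr; exact hc i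
      _ = ‖z‖ ^ i := one_mul _
      _ ≤ ‖z‖ ^ (d - 1) := pow_le_pow_right₀ hz.le (by omega)
  have h2 : ‖g.leadingCoeff * z ^ d‖ = ‖z‖ ^ d := by rw [norm_mul, hl, one_mul, norm_pow]
  have h3 : ‖z‖ ^ (d - 1) < ‖z‖ ^ d := pow_lt_pow_right₀ hz (by omega)
  have h4 : ‖g.eval z‖ = ‖z‖ ^ d := by
    rw [e, Padic.add_eq_max_of_ne (by rw [h2]; exact (h1.trans_lt h3).ne), h2]
    exact max_eq_right (h1.trans h3.le)
  rw [h4]
  calc ‖z‖ = ‖z‖ ^ 1 := (pow_one _).symm
    _ < ‖z‖ ^ d := pow_lt_pow_right₀ hz (by omega)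

theorem padic_period (q : ℕ) [Fact q.Prime] :
    ∃ L : ℕ, 0 < L ∧ ∀ (g : ℚ_[q][X]), 2 ≤ g.natDegree → (∀ i, ‖g.coeff i‖ ≤ 1) →
      ‖g.leadingCoeff‖ = 1 → ∀ (y : ℚ_[q]) (n : ℕ), 0 < n →
      (fun x => g.eval x)^[n] y = y → (fun x => g.eval x)^[L] y = y := by
  obtain ⟨L, hL, H⟩ := padicInt_period q
  refine ⟨L, hL, fun g hd hc hl y n hn hy => ?_⟩
  have hy1 : ‖y‖ ≤ 1 := by
    by_contra h
    push Not at h
    have : ∀ k, ‖y‖ < ‖(fun x => g.eval x)^[k + 1] y‖ := by
      intro k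
      induction k with
      | zero => simpa using padic_grow g hd hc hl y h
      | succ k ih =>
        rw [Function.iterate_succ_apply']
        exact ih.trans (padic_grow g hd hc hl _ (h.trans ih))
    have h2 := this (n - 1)
    rw [Nat.sub_add_cancel hn, hy] at h2
    exact lt_irrefl _ h2
  obtain ⟨P, hP⟩ : g ∈ Polynomial.lifts (algebraMap ℤ_[q] ℚ_[q]) := by
    rw [Polynomial.lifts_iff_coeff_lifts]
    intro i
    exact ⟨⟨g.coeff i, hc i⟩, rfl⟩
  have hsemi : Function.Semiconj (algebraMap ℤ_[q] ℚ_[q]) (fun x => P.eval x)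
      (fun x => g.eval x) := by
    intro x
    rw [← hP]
    simp only [coe_mapRingHom, Polynomial.eval_map, Polynomial.eval₂_hom]
  have hinj : Function.Injective (algebraMap ℤ_[q] ℚ_[q]) := Subtype.val_injective
  obtain ⟨y', hy'⟩ : ∃ y' : ℤ_[q], algebraMap ℤ_[q] ℚ_[q] y' = y := ⟨⟨y, hy1⟩, rfl⟩
  have h1 : (fun x => P.eval x)^[n] y' = y' := by
    apply hinj
    rw [(hsemi.iterate_right n).eq, hy', hy]
  have h2 := congrArg (algebraMap ℤ_[q] ℚ_[q]) (H P _ n hn h1)
  rwa [(hsemi.iterate_right L).eq, hy'] at h2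

theorem padic_root (q : ℕ) [Fact q.Prime] (hq2 : q ≠ 2) (N : ℕ) (h1 : N.Coprime q)
    (h2 : N.Coprime (q - 1)) : ∃ β : ℚ_[q], β ^ N = 2 := by
  have hq : q.Prime := Fact.out
  have hN : N ≠ 0 := by
    rintro rfl
    simp at h1
    exact hq.one_lt.ne' h1
  have h20 : (2 : ZMod q) ≠ 0 := by
    intro h
    have : ((2 : ℕ) : ZMod q) = 0 := by exact_mod_cast h
    rw [ZMod.natCast_eq_zero_iff] at this
    exact hq2 ((Nat.prime_dvd_prime_iff_eq hq Nat.prime_two).mp this)
  obtain ⟨u, hu⟩ : ∃ u : (ZMod q)ˣ, u ^ N = Units.mk0 2 h20 := by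
    have hc : (Nat.card (ZMod q)ˣ).Coprime N := by
      rw [Nat.card_eq_fintype_card, ZMod.card_units]
      exact h2.symm
    exact (powCoprime hc).surjective _
  have hu' : (u : ZMod q) ^ N = 2 := by
    have := congrArg Units.val hu
    simpa using this
  set a : ℤ_[q] := ((u : ZMod q).val : ℤ_[q]) with ha
  have haz : PadicInt.toZMod a = u := by simp [ha]
  have hn1 : ∀ x : ℤ_[q], PadicInt.toZMod x ≠ 0 → ‖x‖ = 1 := by
    intro x hx
    rw [← PadicInt.isUnit_iff]
    by_contra h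
    apply hx
    rw [← RingHom.mem_ker, PadicInt.ker_toZMod]
    exact h
  have hn2 : ∀ x : ℤ_[q], PadicInt.toZMod x = 0 → ‖x‖ < 1 := by
    intro x hx
    rw [← RingHom.mem_ker, PadicInt.ker_toZMod] at hx
    exact PadicInt.mem_nonunits.mp hx
  have hnorm : ‖(X ^ N - C 2 : ℤ_[q][X]).aeval a‖ <
      ‖(X ^ N - C 2 : ℤ_[q][X]).derivative.aeval a‖ ^ 2 := by
    rw [hn1 ((X ^ N - C 2 : ℤ_[q][X]).derivative.aeval a), one_pow]
    · apply hn2
      simp [haz, hu', map_ofNat]
    · have : ((N : ℕ) : ZMod q) ≠ 0 := by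
        rw [Ne, ZMod.natCast_eq_zero_iff]
        intro h
        have := Nat.Coprime.eq_one_of_dvd h1.symm h
        exact hq.one_lt.ne' this
      simp [haz, derivative_X_pow, this]
  obtain ⟨z, hz, -⟩ := hensels_lemma hnorm
  refine ⟨z, ?_⟩
  have : z ^ N = 2 := by
    simp only [map_sub, map_pow, aeval_X, aeval_C] at hz
    exact sub_eq_zero.mp hz
  have h3 := congrArg (algebraMap ℤ_[q] ℚ_[q]) this
  rw [map_pow, map_ofNat] at h3
  exact h3

theorem padic_integral {q : ℕ} [Fact q.Prime] {z : ℚ_[q]} (hz : IsIntegral ℤ z) : ‖z‖ ≤ 1 := by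
  have h1 : IsIntegral ℤ_[q] z := hz.tower_top
  obtain ⟨y, rfl⟩ := (IsIntegrallyClosed.isIntegral_iff (R := ℤ_[q]) (K := ℚ_[q])).mp h1
  exact y.2

end Pool.Agent.H936Z.Usb
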