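import Mathlib
import Pool.Agent.Helper259.HtExt
import Pool.Agent.H936Z.UsbDefs
import Pool.Agent.H936Z.UsbPadic
import Pool.Agent.H936Z.UsbBack

/-!
The field generated by a compatible system of roots `2^(1/N m)` has property (P) but contains
non-preperiodic points of `x^2` of arbitrarily small height.
-/

set_option autoImplicit false

namespace Pool.Agent.H936Z.Usb

open Polynomial IntermediateField Module

theorem exists_q (N : ℕ) (hN : 0 < N) : ∃ q, N + 2 < q ∧ q.Prime ∧ (q : ZMod N) = -1 := by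
  have : NeZero N := ⟨hN.ne'⟩
  obtain ⟨p, h1, h2, h3⟩ :=
    Nat.forall_exists_prime_gt_and_eq_mod (q := N) (a := -1) isUnit_one.neg (N + 2)
  exact ⟨p, h1, h2, h3⟩

noncomputable def qf (N : ℕ) : ℕ := if h : 0 < N then (exists_q N h).choose else 0

theorem qf_spec {N : ℕ} (hN : 0 < N) : N + 2 < qf N ∧ (qf N).Prime ∧ (qf N : ZMod N) = -1 := by
  rw [qf, dif_pos hN]
  exact (exists_q N hN).choose_spec

noncomputable def NN : ℕ → ℕ
  | 0 => 1
  | m + 1 => NN m * ((qf (NN m)).factorial + 1)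

theorem NN_pos (m : ℕ) : 0 < NN m := by
  induction m with
  | zero => exact one_pos
  | succ m ih => exact Nat.mul_pos ih (Nat.succ_pos _)

theorem NN_lt (m : ℕ) : qf (NN m) < NN (m + 1) := by
  have h1 := Nat.self_le_factorial (qf (NN m))
  have h2 := NN_pos m
  show _ < NN m * ((qf (NN m)).factorial + 1)
  nlinarith

theorem NN_ge (m : ℕ) : m + 1 ≤ NN m := by
  induction m with
  | zero => exact le_rfl
  | succ m ih =>
    have := NN_lt m
    have := (qf_spec (NN_pos m)).1
    omega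

theorem q_mono {m m' : ℕ} (h : m ≤ m') : qf (NN m) ≤ qf (NN m') := by
  induction h with
  | refl => exact le_rfl
  | step _ ih =>
    rename_i k _
    have := NN_lt k
    have := (qf_spec (NN_pos (k + 1))).1
    show _ ≤ qf (NN (k + 1))
    omega

theorem NN_odd (m : ℕ) : Odd (NN m) := by
  induction m with
  | zero => exact odd_one
  | succ m ih =>
    refine ih.mul (Even.add_one ?_)
    have := (qf_spec (NN_pos m)).1
    exact even_iff_two_dvd.mpr (Nat.dvd_factorial two_pos (by omega))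

theorem NN_ratio {m m' : ℕ} (h : m ≤ m') :
    ∃ R, NN m' = NN m * R ∧ ∀ p : ℕ, p.Prime → p ∣ R → qf (NN m) < p := by
  induction h with
  | refl => exact ⟨1, by simp, fun p hp h => absurd (Nat.dvd_one.mp h) hp.one_lt.ne'⟩
  | step hk ih =>
    rename_i k
    obtain ⟨R, hR, hR'⟩ := ih
    refine ⟨R * ((qf (NN k)).factorial + 1), ?_, ?_⟩
    · show NN k * _ = _
      rw [← mul_assoc, ← hR]
    · intro p hp hd
      rcases (Nat.Prime.dvd_mul hp).mp hd with hd | hd
      · exact hR' p hp hd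
      · by_contra hle
        push Not at hle
        have h1 : p ∣ (qf (NN k)).factorial := Nat.dvd_factorial hp.pos (hle.trans (q_mono hk))
        exact hp.one_lt.ne' (Nat.dvd_one.mp ((Nat.dvd_add_right h1).mp hd))

theorem NN_coprime (j m : ℕ) :
    (NN m).Coprime (qf (NN j)) ∧ (NN m).Coprime (qf (NN j) - 1) := by
  obtain ⟨h1, h2, h3⟩ := qf_spec (NN_pos j)
  set q := qf (NN j) with hq
  have hd : NN j ∣ q + 1 := by
    rw [← ZMod.natCast_eq_zero_iff]
    push_cast
    rw [h3]; ring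
  -- it suffices to treat primes
  have key : ∀ p : ℕ, p.Prime → p ∣ NN m → p ∣ NN j ∨ q < p := by
    intro p hp hpm
    rcases le_total m j with h | h
    · obtain ⟨R, hR, -⟩ := NN_ratio h
      left; rw [hR]; exact hpm.mul_right _
    · obtain ⟨R, hR, hR'⟩ := NN_ratio h
      rw [hR] at hpm
      rcases (Nat.Prime.dvd_mul hp).mp hpm with hd | hd
      · exact Or.inl hd
      · exact Or.inr (hR' p hp hd)
  constructor
  · apply Nat.Coprime.symm
    apply Nat.coprime_of_dvd
    intro p hp hpq hpm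
    rcases key p hp hpm with h | h
    · exact hp.one_lt.ne' (Nat.dvd_one.mp ((Nat.dvd_add_right hpq).mp (h.trans hd)))
    · exact absurd (Nat.le_of_dvd h2.pos hpq) (by omega)
  · apply Nat.Coprime.symm
    apply Nat.coprime_of_dvd
    intro p hp hpq hpm
    rcases key p hp hpm with h | h
    · have h4 : p ∣ (q - 1) + 2 := by
        have : q - 1 + 2 = q + 1 := by omega
        rw [this]; exact h.trans hd
      have h5 : p ∣ 2 := (Nat.dvd_add_right hpq).mp h4
      have h6 : p = 2 := (Nat.prime_dvd_prime_iff_eq hp Nat.prime_two).mp h5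
      subst h6
      exact (Nat.not_even_iff_odd.mpr (NN_odd j)) (even_iff_two_dvd.mpr h)
    · exact absurd (Nat.le_of_dvd (by omega) hpq) (by omega)

noncomputable def gam : ℕ → Qbar
  | 0 => 2
  | m + 1 => (IsAlgClosed.exists_pow_nat_eq (gam m)
      (Nat.succ_pos (qf (NN m)).factorial)).choose

theorem gam_succ (m : ℕ) : gam (m + 1) ^ ((qf (NN m)).factorial + 1) = gam m :=
  (IsAlgClosed.exists_pow_nat_eq (gam m) (Nat.succ_pos (qf (NN m)).factorial)).choose_spec

theorem gam_pow (m : ℕ) : gam m ^ NN m = 2 := by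
  induction m with
  | zero => simp [gam, NN]
  | succ m ih =>
    show gam (m + 1) ^ (NN m * _) = 2
    rw [mul_comm, pow_mul, gam_succ, ih]

theorem isAlg : Algebra.IsAlgebraic ℚ Qbar := AlgebraicClosure.isAlgebraic ℚ

theorem isInt (x : Qbar) : IsIntegral ℚ x := (isAlg.isAlgebraic x).isIntegral

noncomputable def FF (m : ℕ) : IntermediateField ℚ Qbar := ℚ⟮gam m⟯

theorem FF_mono : Monotone FF := by
  apply monotone_nat_of_le_succ
  intro m
  rw [FF, adjoin_simple_le_iff, ← gam_succ]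
  exact pow_mem (mem_adjoin_simple_self ℚ _) _

noncomputable def Finf : IntermediateField ℚ Qbar := ⨆ m, FF m

theorem mem_Finf {y : Qbar} : y ∈ Finf ↔ ∃ m, y ∈ FF m := by
  have := IntermediateField.coe_iSup_of_directed FF_mono.directed_le
  rw [← SetLike.mem_coe, Finf, this]
  simp

theorem minpoly_gam (m : ℕ) : minpoly ℚ (gam m) = X ^ NN m - C 2 := by
  symm
  apply minpoly.eq_of_irreducible_of_monic
  · apply X_pow_sub_C_irreducible_of_odd (NN_odd m)
    intro p hp _ b hb
    have hb0 : b ≠ 0 := by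
      rintro rfl
      rw [zero_pow hp.ne_zero] at hb
      norm_num at hb
    have h1 := congrArg (padicValRat 2) hb
    rw [padicValRat.pow] at h1
    have h2 : padicValRat 2 (2 : ℚ) = 1 := padicValRat.self (p := 2) one_lt_two
    rw [h2] at h1
    have h3 : (p : ℤ) ∣ 1 := ⟨_, h1.symm⟩
    have h4 : p ∣ 1 := by exact_mod_cast h3
    exact hp.one_lt.ne' (Nat.dvd_one.mp h4)
  · simp [gam_pow, map_ofNat]
  · exact monic_X_pow_sub_C _ (NN_pos m).ne'

theorem finrank_FF (m : ℕ) : finrank ℚ (FF m) = NN m := by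
  rw [FF, adjoin.finrank (isInt _), minpoly_gam, natDegree_X_pow_sub_C]

instance nf_FF (m : ℕ) : NumberField (FF m) :=
  haveI : FiniteDimensional ℚ (FF m) := adjoin.finiteDimensional (isInt (gam m))
  {}

theorem closure_lemma (m : ℕ) {y : Qbar} (hy : y ∈ Finf) (P : (FF m)[X]) (hP : P ≠ 0)
    (hd : P.natDegree ≤ m) (hr : aeval y P = 0) : y ∈ FF m := by
  obtain ⟨m1, hm1⟩ := mem_Finf.mp hy
  set m' := max m m1
  have hy' : y ∈ FF m' := FF_mono (le_max_right _ _) hm1
  have hint : IsIntegral (FF m) y := (isInt y).tower_top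
  set e := finrank (FF m) (FF m)⟮y⟯ with he
  have he1 : e ≤ m := by
    rw [he, adjoin.finrank hint]
    exact (natDegree_le_natDegree (minpoly.degree_le_of_ne_zero _ _ hP hr)).trans hd
  have hfd : FiniteDimensional (FF m) (FF m)⟮y⟯ := adjoin.finiteDimensional hint
  have he0 : 0 < e := Module.finrank_pos
  have hle : ((FF m)⟮y⟯).restrictScalars ℚ ≤ FF m' := by
    have e0 := IntermediateField.restrictScalars_adjoin ℚ (FF m) {y}
    refine e0.le.trans ?_
    rw [adjoin_le_iff]
    rintro z (hz | hz)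
    · exact FF_mono (le_max_left _ _) hz
    · rw [Set.mem_singleton_iff.mp hz]; exact hy'
  have hdvd := IntermediateField.finrank_dvd_of_le_right hle
  have hmul : finrank ℚ (((FF m)⟮y⟯).restrictScalars ℚ) = NN m * e := by
    rw [← finrank_FF]
    exact (Module.finrank_mul_finrank ℚ (FF m) (FF m)⟮y⟯).symm
  obtain ⟨R, hR, hR'⟩ := NN_ratio (le_max_left m m1)
  rw [hmul, finrank_FF, hR] at hdvd
  have heR : e ∣ R := Nat.dvd_of_mul_dvd_mul_left (NN_pos m) hdvd
  have he2 : e = 1 := by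
    by_contra hne
    obtain ⟨p, hp, hpe⟩ := Nat.exists_prime_and_dvd hne
    have h1 := hR' p hp (hpe.trans heR)
    have h2 := Nat.le_of_dvd he0 hpe
    have h3 := (qf_spec (NN_pos m)).1
    have h4 := NN_ge m
    omega
  obtain ⟨z, hz⟩ := IntermediateField.mem_bot.mp (finrank_adjoin_simple_eq_one_iff.mp he2)
  rw [← hz]
  exact z.2

theorem exists_emb (j m : ℕ) [Fact (qf (NN j)).Prime] : Nonempty (FF m →+* ℚ_[qf (NN j)]) := by
  obtain ⟨h1, -, -⟩ := qf_spec (NN_pos j)
  obtain ⟨β, hβ⟩ := padic_root (qf (NN j)) (by omega) (NN m) (NN_coprime j m).1 (NN_coprime j m).2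
  refine ⟨((adjoin.powerBasis (isInt (gam m))).lift β ?_).toRingHom⟩
  rw [adjoin.powerBasis_gen, minpoly_gen, minpoly_gam]
  simp [hβ, map_ofNat]

theorem exists_lift (g : Qbar[X]) (hg : ∀ i, g.coeff i ∈ Finf) :
    ∃ j, ∀ m, j ≤ m → ∃ P : (FF m)[X], P.map (algebraMap (FF m) Qbar) = g := by
  have h1 : ∀ i, ∃ m, g.coeff i ∈ FF m := fun i => mem_Finf.mp (hg i)
  choose t ht using h1
  refine ⟨(Finset.range (g.natDegree + 1)).sup t, fun m hm => ?_⟩
  have : g ∈ Polynomial.lifts (algebraMap (FF m) Qbar) := by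
    rw [Polynomial.lifts_iff_coeff_lifts]
    intro i
    rcases le_or_gt i g.natDegree with h | h
    · have h2 : t i ≤ m := (Finset.le_sup (f := t) (Finset.mem_range.mpr (by omega))).trans hm
      exact ⟨⟨g.coeff i, FF_mono h2 (ht i)⟩, rfl⟩
    · rw [coeff_eq_zero_of_natDegree_lt h]
      exact ⟨0, rfl⟩
  exact this

theorem semi_map {A B : Type*} [CommRing A] [CommRing B] (φ : A →+* B) (P : A[X]) :
    Function.Semiconj φ (fun x => P.eval x) (fun x => (P.map φ).eval x) := by
  intro x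
  simp only [Polynomial.eval_map, Polynomial.eval₂_hom]

theorem back_periodic (g : Qbar[X]) (hg : ∀ i, g.coeff i ∈ Finf) (hd : 2 ≤ g.natDegree)
    (x : ℕ → Qbar) (hxF : ∀ k, x k ∈ Finf) (hx : ∀ k, g.eval (x (k + 1)) = x k) :
    ∃ n, 0 < n ∧ (fun z => g.eval z)^[n] (x 0) = x 0 := by
  obtain ⟨j, hj⟩ := exists_lift g hg
  obtain ⟨m0, hm0⟩ := mem_Finf.mp (hxF 0)
  set m := max (max j m0) g.natDegree with hm
  obtain ⟨P, hP⟩ := hj m ((le_max_left _ _).trans (le_max_left _ _))
  have hPd : P.natDegree = g.natDegree := by rw [← hP, natDegree_map]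
  have hmem : ∀ k, x k ∈ FF m := by
    intro k
    induction k with
    | zero => exact FF_mono ((le_max_right _ _).trans (le_max_left _ _)) hm0
    | succ k ih =>
      have hd' : (P - C (⟨x k, ih⟩ : FF m)).natDegree = g.natDegree := by
        rw [natDegree_sub_C, hPd]
      apply closure_lemma m (hxF _) (P - C (⟨x k, ih⟩ : FF m))
      · intro h0
        rw [h0, natDegree_zero] at hd'
        omega
      · rw [hd']; exact le_max_right _ _
      · rw [map_sub, aeval_C, aeval_def, ← Polynomial.eval_map, hP, hx, sub_eq_zero]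
        rfl
  have hfin := back_finite P (by omega) (fun k => (⟨x k, hmem k⟩ : FF m)) (fun k => by
    apply (algebraMap (FF m) Qbar).injective
    rw [(semi_map (algebraMap (FF m) Qbar) P).eq, hP]
    exact hx k)
  have hit : ∀ a k, (fun z => g.eval z)^[k] (x (a + k)) = x a := by
    intro a k
    induction k with
    | zero => rfl
    | succ k ih => rw [Function.iterate_succ_apply, ← add_assoc, hx, ih]
  have : Finite (Set.range fun k => (⟨x k, hmem k⟩ : FF m)) := hfin
  obtain ⟨a, b, hab, hxab⟩ := Finite.exists_ne_map_eq_of_infinite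
    (Set.rangeFactorization fun k => (⟨x k, hmem k⟩ : FF m))
  have hxab' : x a = x b := congrArg (fun z => (z.1.1 : Qbar)) hxab
  wlog hlt : a < b generalizing a b
  · exact this b a hab.symm hxab.symm hxab'.symm (by omega)
  obtain ⟨n, rfl⟩ := Nat.exists_eq_add_of_lt hlt
  refine ⟨n + 1, Nat.succ_pos _, ?_⟩
  have h1 := hit a (n + 1)
  rw [← add_assoc, ← hxab'] at h1
  have h2 := hit 0 a
  rw [zero_add] at h2
  rw [← h2, ← Function.iterate_add_apply, add_comm, Function.iterate_add_apply, h1]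

theorem periodic_finite (g : Qbar[X]) (hg : ∀ i, g.coeff i ∈ Finf) (hd : 2 ≤ g.natDegree) :
    {y | y ∈ Finf ∧ ∃ n, 0 < n ∧ (fun z => g.eval z)^[n] y = y}.Finite := by
  classical
  obtain ⟨j0, hj⟩ := exists_lift g hg
  have hg0 : g ≠ 0 := by
    rintro rfl
    simp at hd
  have hl : g.leadingCoeff ≠ 0 := leadingCoeff_ne_zero.mpr hg0
  have := isAlg
  obtain ⟨c, hc, H⟩ := exists_denom (insert (g.leadingCoeff⁻¹)
    ((Finset.range (g.natDegree + 1)).image fun i => g.coeff i))
  obtain ⟨hq1, hq2, -⟩ := qf_spec (NN_pos c)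
  have := Fact.mk hq2
  have hcn : ‖(c : ℚ_[qf (NN c)])‖ = 1 := by
    rw [Padic.norm_natCast_eq_one_iff]
    have := NN_ge c
    exact (Nat.coprime_of_lt_prime hc.ne' (by omega) hq2)
  obtain ⟨L, hL, HL⟩ := padic_period (qf (NN c))
  have hne : g.comp^[L] X - X ≠ 0 := by
    intro h0
    have h1 := congrArg natDegree (sub_eq_zero.mp h0)
    rw [natDegree_iterate_comp, natDegree_X, mul_one] at h1
    have h2 : 1 < g.natDegree ^ L := Nat.one_lt_pow hL.ne' (by omega)
    omega
  refine (Polynomial.finite_setOfPred_isRoot hne).subset ?_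
  rintro y ⟨hy, n, hn, hper⟩
  obtain ⟨m0, hm0⟩ := mem_Finf.mp hy
  set m := max j0 m0
  obtain ⟨P, hP⟩ := hj m (le_max_left _ _)
  obtain ⟨ι⟩ := exists_emb c m
  obtain ⟨y', hy'⟩ : ∃ y' : FF m, algebraMap (FF m) Qbar y' = y :=
    ⟨⟨y, FF_mono (le_max_right _ _) hm0⟩, rfl⟩
  have s1 := semi_map (algebraMap (FF m) Qbar) P
  rw [hP] at s1
  have s2 := semi_map ι P
  have hper' : (fun z => P.eval z)^[n] y' = y' := by
    apply (algebraMap (FF m) Qbar).injective
    rw [(s1.iterate_right n).eq, hy', hper]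
  have hnorm : ∀ z : FF m, IsIntegral ℤ ((c : Qbar) * algebraMap (FF m) Qbar z) → ‖ι z‖ ≤ 1 := by
    intro z hz
    have h1 : IsIntegral ℤ ((c : FF m) * z) := by
      rw [← isIntegral_algebraMap_iff (B := Qbar) (algebraMap (FF m) Qbar).injective, map_mul,
        map_natCast]
      exact hz
    have h2 := padic_integral (map_isIntegral_int ι h1)
    rwa [map_mul, map_natCast, norm_mul, hcn, one_mul] at h2
  have hPd : P.natDegree = g.natDegree := by rw [← hP, natDegree_map]
  have hcoef : ∀ i, ‖(P.map ι).coeff i‖ ≤ 1 := by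
    intro i
    rw [coeff_map]
    apply hnorm
    rw [← coeff_map, hP]
    rcases le_or_gt i g.natDegree with h | h
    · exact H _ (Finset.mem_insert_of_mem
        (Finset.mem_image.mpr ⟨i, Finset.mem_range.mpr (by omega), rfl⟩))
    · rw [coeff_eq_zero_of_natDegree_lt h, mul_zero]; exact isIntegral_zero
  have hlead : ‖(P.map ι).leadingCoeff‖ = 1 := by
    apply le_antisymm (hcoef _)
    have h1 : algebraMap (FF m) Qbar P.leadingCoeff = g.leadingCoeff := by
      rw [← hP, leadingCoeff_map]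
    have h2 : ‖ι (P.leadingCoeff⁻¹)‖ ≤ 1 := by
      apply hnorm
      rw [map_inv₀, h1]
      exact H _ (Finset.mem_insert_self _ _)
    have h3 : P.leadingCoeff ≠ 0 := by
      intro h0
      rw [h0, map_zero] at h1
      exact hl h1.symm
    rw [map_inv₀, norm_inv] at h2
    show 1 ≤ ‖(P.map ι).leadingCoeff‖
    rw [leadingCoeff_map]
    exact (inv_le_one₀ (norm_pos_iff.mpr ((map_ne_zero ι).mpr h3))).mp h2
  have h4 := HL (P.map ι) (by rw [natDegree_map]; omega) hcoef hlead (ι y') n hn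
    (by rw [← (s2.iterate_right n).eq, hper'])
  rw [← (s2.iterate_right L).eq] at h4
  have h5 := congrArg (algebraMap (FF m) Qbar) (ι.injective h4)
  rw [(s1.iterate_right L).eq, hy'] at h5
  show (g.comp^[L] X - X).IsRoot y
  rw [IsRoot, eval_sub, Polynomial.iterate_comp_eval, eval_X, h5, sub_self]

theorem propP_Finf : PropP Finf := by
  rintro f hf ⟨S, hS, hfS⟩
  by_contra hne
  have hd : 2 ≤ f.natDegree := by omega
  set g : Qbar[X] := f.map (algebraMap Finf Qbar) with hg
  have hgc : ∀ i, g.coeff i ∈ Finf := fun i => by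
    rw [hg, coeff_map]; exact (f.coeff i).2
  have hgd : 2 ≤ g.natDegree := by rw [hg, natDegree_map]; exact hd
  have hpre : ∀ s : S, ∃ t : S, f.eval (t : Finf) = s := by
    rintro ⟨s, hs⟩
    rw [← hfS] at hs
    obtain ⟨t, ht, hts⟩ := hs
    exact ⟨⟨t, ht⟩, hts⟩
  choose b hb using hpre
  have s1 := semi_map (algebraMap Finf Qbar) f
  apply hS
  refine ((periodic_finite g hgc hgd).preimage
    (algebraMap Finf Qbar).injective.injOn).subset ?_
  intro s hs
  refine ⟨s.2, ?_⟩
  have := back_periodic g hgc hgd (fun k => algebraMap Finf Qbar (b^[k] ⟨s, hs⟩ : S))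
    (fun k => ((b^[k] ⟨s, hs⟩ : S) : Finf).2) (fun k => by
      rw [Function.iterate_succ_apply', hg, ← s1.eq, hb])
  exact this

theorem absHt_eq (L : IntermediateField ℚ Qbar) [NumberField L] (y : L) :
    NumberField.absLogHeight₁ (y : Qbar) = Height.logHeight₁ y / finrank ℚ L := by
  have hfd : FiniteDimensional ℚ ℚ⟮(y : Qbar)⟯ := adjoin.finiteDimensional (isInt _)
  have : NumberField ℚ⟮(y : Qbar)⟯ := {}
  have hle : ℚ⟮(y : Qbar)⟯ ≤ L := adjoin_simple_le_iff.mpr y.2
  let _ : Algebra ℚ⟮(y : Qbar)⟯ L := (IntermediateField.inclusion hle).toRingHom.toAlgebra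
  have key := Helper259.HtExt.logHeight_ext (K := ℚ⟮(y : Qbar)⟯) (L := L)
    ![AdjoinSimple.gen ℚ (y : Qbar), 1]
  have e : (fun i => algebraMap ℚ⟮(y : Qbar)⟯ L (![AdjoinSimple.gen ℚ (y : Qbar), 1] i)) =
      ![y, 1] := by
    funext i
    fin_cases i
    · rfl
    · simp
  rw [e, ← Height.logHeight₁_eq_logHeight, ← Height.logHeight₁_eq_logHeight] at key
  have hmul : (finrank ℚ ℚ⟮(y : Qbar)⟯ : ℝ) * finrank ℚ⟮(y : Qbar)⟯ L = finrank ℚ L := by
    exact_mod_cast Module.finrank_mul_finrank ℚ ℚ⟮(y : Qbar)⟯ L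
  have hpos : (0 : ℝ) < finrank ℚ⟮(y : Qbar)⟯ L := by
    have := Module.finrank_pos (R := ℚ⟮(y : Qbar)⟯) (M := L)
    exact_mod_cast this
  have hpos' : (0 : ℝ) < finrank ℚ ℚ⟮(y : Qbar)⟯ := by
    have := Module.finrank_pos (R := ℚ) (M := ℚ⟮(y : Qbar)⟯)
    exact_mod_cast this
  unfold NumberField.absLogHeight₁ NumberField.absMulHeight₁
  rw [dif_pos (isInt _), Real.log_rpow (Height.mulHeight₁_pos _), key, ← hmul,
    ← Height.logHeight₁_eq_log_mulHeight₁]
  field_simp

theorem absHt_pow (x : Qbar) (n : ℕ) :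
    NumberField.absLogHeight₁ (x ^ n) = n * NumberField.absLogHeight₁ x := by
  have hfd : FiniteDimensional ℚ ℚ⟮x⟯ := adjoin.finiteDimensional (isInt _)
  have : NumberField ℚ⟮x⟯ := {}
  have h1 := absHt_eq ℚ⟮x⟯ (AdjoinSimple.gen ℚ x)
  have h2 := absHt_eq ℚ⟮x⟯ (AdjoinSimple.gen ℚ x ^ n)
  rw [Height.logHeight₁_pow] at h2
  have e1 : ((AdjoinSimple.gen ℚ x : ℚ⟮x⟯) : Qbar) = x := rfl
  have e2 : ((AdjoinSimple.gen ℚ x ^ n : ℚ⟮x⟯) : Qbar) = x ^ n := rfl
  rw [e1] at h1
  rw [e2] at h2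
  rw [h1, h2, mul_div_assoc]

noncomputable def sqr : RatFunc Qbar := algebraMap Qbar[X] (RatFunc Qbar) (X ^ 2)

theorem sqr_num : sqr.num = X ^ 2 := RatFunc.num_algebraMap _

theorem sqr_denom : sqr.denom = 1 := RatFunc.denom_algebraMap _

theorem deg_sqr : deg sqr = 2 := by simp [deg, sqr_num, sqr_denom]

theorem act_sqr_none : act sqr none = none := by simp [act, sqr_num, sqr_denom]

theorem act_sqr_some (x : Qbar) : act sqr (some x) = some (x ^ 2) := by
  simp [act, sqr_num, sqr_denom]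

theorem canon_sqr : IsCanonicalHeight sqr ht := by
  refine ⟨?_, 0, by simp⟩
  rintro (_ | x)
  · simp [act_sqr_none, ht]
  · rw [act_sqr_some, deg_sqr]
    exact absHt_pow x 2

theorem not_usb_Finf : ¬ USB Finf := by
  intro h
  obtain ⟨⟨c, hc, H⟩, -⟩ := h sqr deg_sqr.ge ht canon_sqr
  obtain ⟨m, hm⟩ := exists_nat_gt (NumberField.absLogHeight₁ (2 : Qbar) / c)
  have hit : ∀ n, (act sqr)^[n] (some (gam m)) = some (gam m ^ 2 ^ n) := by
    intro n
    induction n with
    | zero => simp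
    | succ n ih => rw [Function.iterate_succ_apply', ih, act_sqr_some, ← pow_mul, pow_succ]
  have h1 := H (some (gam m))
    (Or.inr ⟨gam m, mem_Finf.mpr ⟨m, mem_adjoin_simple_self ℚ _⟩, rfl⟩) (by
      apply Set.infinite_range_of_injective
      intro a b hab
      simp only [hit, Option.some.injEq] at hab
      have h2 := congrArg (· ^ NN m) hab
      simp only [← pow_mul, mul_comm _ (NN m)] at h2
      rw [pow_mul, pow_mul, gam_pow] at h2
      have h3 : (2 : ℕ) ^ 2 ^ a = 2 ^ 2 ^ b := by exact_mod_cast h2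
      exact Nat.pow_right_injective le_rfl (Nat.pow_right_injective le_rfl h3))
  have h2 := absHt_pow (gam m) (NN m)
  rw [gam_pow] at h2
  have h3 : (m : ℝ) + 1 ≤ NN m := by exact_mod_cast NN_ge m
  have h4 : c ≤ NumberField.absLogHeight₁ (gam m) := h1
  rw [div_lt_iff₀ hc, h2] at hm
  nlinarith

end Pool.Agent.H936Z.Usb
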